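import Pool.Agent.Helper27.CF.Main
import Pool.Agent.TH425.FF.Cun

set_option autoImplicit false

/-!
# Structures with complete automorphism groups

The perfect set dichotomy for the Borel classes of structures with complete automorphism groups,
and the coanalyticity of this class.
-/

namespace Pool.Agent.Helper27.CF

open Set
open MeasureTheory (AnalyticSet)
open Pool.Agent.H899R2.VP (St Adj PIso BF IsoOn)
open Pool.Agent.H533R2.VO (RS RIso VC Dich)
open Pool.Agent.H533R2.VS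

variable {a : ℕ → ℕ}

/-- the automorphism group -/
def Aut (x : RS a) : Subgroup (Equiv.Perm ℕ) where
  carrier := {σ | ∀ i v, x i (⇑σ ∘ v) = x i v}
  mul_mem' := by
    intro σ τ hσ hτ i v
    have h1 : (⇑(σ * τ) ∘ v) = ⇑σ ∘ (⇑τ ∘ v) := rfl
    rw [h1, hσ i, hτ i]
  one_mem' := by
    intro i v
    rfl
  inv_mem' := by
    intro σ hσ i v
    have h1 := hσ i (⇑σ⁻¹ ∘ v)
    have h2 : ⇑σ ∘ (⇑σ⁻¹ ∘ v) = v := by
      funext k
      simp
    rw [h2] at h1
    exact h1.symm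

theorem closed_aut (x : RS a) : ClosedG (Aut x) := by
  intro σ h i v
  obtain ⟨τ, hτ, h2⟩ := h.agree (Finset.univ.image v)
  have h3 : ⇑σ ∘ v = ⇑τ ∘ v := by
    funext k
    exact (h2 (v k) (Finset.mem_image_of_mem v (Finset.mem_univ k))).symm
  rw [h3]
  exact hτ i v

/-- the group contains no nonabelian free group -/
def NoFree (G : Subgroup (Equiv.Perm ℕ)) : Prop :=
  ¬ ∃ φ : FreeGroup (Fin 2) →* Equiv.Perm ℕ, Function.Injective φ ∧ ∀ w, φ w ∈ G

theorem NoFree.complete {G : Subgroup (Equiv.Perm ℕ)} (h : NoFree G) (hcl : ClosedG G) :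
    Complete G := by
  by_contra hnc
  obtain ⟨σ, h1, h2⟩ := exists_free (α := Fin 2) hcl hnc
  refine h ⟨FreeGroup.lift σ, h2, fun w => ?_⟩
  have h3 : (FreeGroup.lift σ).range ≤ G := by
    rw [FreeGroup.range_lift_eq_closure, Subgroup.closure_le]
    rintro _ ⟨a, rfl⟩
    exact h1 a
  exact h3 ⟨w, rfl⟩

/-- the structures with complete automorphism groups -/
def Cli (x : RS a) : Prop := Complete (Aut x)

theorem Complete.anti {G H : Subgroup (Equiv.Perm ℕ)} (h : Complete H) (hGH : G ≤ H) :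
    Complete G := by
  intro f hf
  refine h f fun n => ?_
  obtain ⟨σ, h1, h2⟩ := hf n
  exact ⟨σ, hGH h1, h2⟩

theorem isoOn_of_perm' {M N : St a} (hM : M.1 = fun _ _ => false) (hN : N.1 = fun _ _ => false)
    (σ : Equiv.Perm ℕ) (h : ∀ (i : ℕ) (v : Fin (a i) → ℕ), N.2 i (⇑σ ∘ v) = M.2 i v) :
    IsoOn M N univ univ ∅ := by
  refine ⟨{u | u.2 = σ u.1}, empty_subset _, fun _ _ => ⟨mem_univ _, mem_univ _⟩, ⟨?_, ?_, ?_⟩,
    fun x _ => ⟨σ x, rfl⟩, fun y _ => ⟨σ.symm y, by simp⟩⟩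
  · rintro ⟨u, u'⟩ hu ⟨v, v'⟩ hv
    simp only [Set.mem_ofPred_eq] at hu hv
    subst hu hv
    simp
  · rintro ⟨u, u'⟩ hu ⟨v, v'⟩ hv
    rw [hM, hN]
  · intro i t ht
    have h1 : (fun k => (t k).2) = ⇑σ ∘ fun k => (t k).1 := funext fun k => ht k
    rw [h1, h]

/-- **The perfect set dichotomy for structures with complete automorphism groups.** -/
theorem vc_cli (a : ℕ → ℕ) : VC (Cli : RS a → Prop) := by
  classical
  intro B hB hinv hV
  by_contra hcon
  unfold Dich at hcon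
  push Not at hcon
  obtain ⟨hunc, hfew⟩ := hcon
  set K : Set (St a) := {M | M.2 ∈ B ∧ M.1 = fun _ _ => false} with hKdef
  have hKm : MeasurableSet K := by
    refine (measurable_snd hB).inter ?_
    exact (isClosed_eq continuous_fst continuous_const).measurableSet
  have hKinv : ∀ M ∈ K, ∀ N : St a, IsoOn M N univ univ ∅ → N ∈ K := by
    rintro M ⟨hM1, hM2⟩ N hMN
    obtain ⟨e, -, he⟩ := hMN.exists_equiv
    refine ⟨(hinv M.2 N.2 ⟨e, fun i v =>
      (he.2.2 i (fun k => (v k, e (v k))) (fun k => rfl)).symm⟩).1 hM1, ?_⟩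
    funext x y
    have h1 : M.1 (e.symm x) (e.symm y) = N.1 x y := by
      have := he.2.1 (e.symm x, e (e.symm x)) rfl (e.symm y, e (e.symm y)) rfl
      simpa using this
    rw [← h1, hM2]
  have few : ¬ ∃ g : (ℕ → Bool) → St a, Continuous g ∧ (∀ c, g c ∈ K) ∧
      ∀ c d, IsoOn (g c) (g d) univ univ ∅ → c = d := by
    rintro ⟨g, hgc, hg1, hg2⟩
    obtain ⟨c, d, h1, h2⟩ := hfew (fun c => (g c).2) (continuous_snd.comp hgc) (fun c => (hg1 c).1)
    obtain ⟨σ, hσ⟩ := h1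
    exact h2 (hg2 c d (isoOn_of_perm' (hg1 c).2 (hg1 d).2 σ hσ))
  have unc : ¬ ∃ f : ℕ → St a, ∀ M ∈ K, ∃ n, IsoOn (f n) M univ univ ∅ := by
    rintro ⟨f, hf⟩
    obtain ⟨x, hx, hx2⟩ := hunc (fun n => (f n).2)
    obtain ⟨n, hn⟩ := hf (fun _ _ => false, x) ⟨hx, rfl⟩
    exact hx2 n (Pool.Agent.H899R2.VP.perm_of_iso hn)
  obtain ⟨M, hM, f, hf, h1⟩ := exists_limit hKm hKinv few unc
  refine hf (hV M.2 hM.1 f fun n => ?_)
  obtain ⟨e, he1, he2⟩ := (h1 n).exists_equiv
  refine ⟨e, fun i v => (he2.2.2 i (fun k => (v k, e (v k))) (fun k => rfl)).symm,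
    fun i hi => he1 _ (gr_mem id f hi)⟩

theorem aut_cmb (x : RS a) (U : ℕ → ℕ → Bool) : Aut (cmb x U) ≤ Aut x := by
  intro σ hσ i v
  have h1 : RIso (cmb x U) (cmb x U) := ⟨σ, hσ⟩
  have h2 := hσ (2 * i) (fun j => v (Fin.cast (a1_even a i) j))
  have h3 : ∀ w : Fin (a i) → ℕ,
      cmb x U (2 * i) (fun j => w (Fin.cast (a1_even a i) j)) = x i w := by
    intro w
    have h4 := congrFun (congrFun ((t_CMB a).1 x U).1 i) w
    exact h4
  rw [← h3 v, ← h3 (⇑σ ∘ v)]
  exact h2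

/-- the same with unary predicates -/
theorem vcu_cli (a : ℕ → ℕ) : VCu (Cli : RS a → Prop) := by
  intro B hB hinv hV
  obtain ⟨h1, h2, h3, h4, h5, h6⟩ := t_CMB a
  have hB1 : MeasurableSet {R : RS (a1 a) | (evn R, odd R) ∈ B} :=
    (h3.measurable.prodMk h4.measurable) hB
  have hiso : ∀ R R' : RS (a1 a), RIso R R' ↔ UIso (evn R, odd R) (evn R', odd R') := by
    intro R R'
    rw [← h6]
    simp only [h2]
  have key := vc_cli (a1 a) {R | (evn R, odd R) ∈ B} hB1
    (fun R R' h => hinv _ _ ((hiso R R').1 h))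
    (fun R hR => by
      have h7 : Cli (evn R) := hV _ hR
      refine Complete.anti h7 ?_
      have h8 := aut_cmb (evn R) (odd R)
      rwa [h2] at h8)
  rcases key with ⟨f, hf⟩ | ⟨g, hg1, hg2, hg3⟩
  · left
    refine ⟨fun n => (evn (f n), odd (f n)), fun x hx => ?_⟩
    obtain ⟨n, hn⟩ := hf (cmb x.1 x.2) (by
      show (evn (cmb x.1 x.2), odd (cmb x.1 x.2)) ∈ B
      rw [(h1 x.1 x.2).1, (h1 x.1 x.2).2]
      exact hx)
    refine ⟨n, ?_⟩
    have h7 := (hiso _ _).1 hn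
    rwa [(h1 x.1 x.2).1, (h1 x.1 x.2).2] at h7
  · right
    exact ⟨fun c => (evn (g c), odd (g c)), (h3.prodMk h4).comp hg1, hg2,
      fun c d h => hg3 c d ((hiso _ _).2 h)⟩

theorem inv_cli (a : ℕ → ℕ) : Inv (Cli : RS a → Prop) := by
  rintro x y ⟨σ, hσ⟩ hx f hf
  have hy : ∀ i v, y i v = x i (⇑σ.symm ∘ v) := by
    intro i v
    have h1 := hσ i (⇑σ.symm ∘ v)
    have h2 : ⇑σ ∘ (⇑σ.symm ∘ v) = v := by
      funext k
      simp
    rw [h2] at h1
    exact h1
  have h1 : Lim (Aut x) (fun i => σ.symm (f (σ i))) := by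
    intro n
    obtain ⟨τ, hτ, hτ2⟩ := hf.agree ((Finset.range n).image σ)
    refine ⟨σ.symm * τ * σ, fun i v => ?_, fun i hi => ?_⟩
    · have h3 := hτ i (⇑σ ∘ v)
      rw [hσ i v, hy] at h3
      exact h3
    · show σ.symm (τ (σ i)) = _
      rw [hτ2 _ (Finset.mem_image_of_mem σ (Finset.mem_range.2 hi))]
  intro y
  obtain ⟨i, hi⟩ := hx _ h1 (σ.symm y)
  exact ⟨σ i, σ.symm.injective hi⟩

theorem coan_cli (a : ℕ → ℕ) : Coan (Cli : RS a → Prop) := by
  classical
  unfold Coan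
  have P1 : PolishSpace (RS a) := kis_pRS a
  have P2 : PolishSpace (ℕ → ℕ) := kis_pN
  have P3 : PolishSpace (ℕ → ℕ → ℕ) := exk_polish
  have P4 : PolishSpace (RS a × (ℕ → ℕ) × (ℕ → ℕ → ℕ) × (ℕ → ℕ → ℕ)) := exk_polish
  have b0 : BorelSpace (RS a) := inferInstance
  have b1 : BorelSpace (ℕ → ℕ) := Pi.borelSpace
  have b2 : BorelSpace (ℕ → ℕ → ℕ) := Pi.borelSpace
  have b3 : BorelSpace ((ℕ → ℕ → ℕ) × (ℕ → ℕ → ℕ)) := Prod.borelSpace
  have b4 : BorelSpace ((ℕ → ℕ) × (ℕ → ℕ → ℕ) × (ℕ → ℕ → ℕ)) := Prod.borelSpace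
  have b5 : BorelSpace (RS a × (ℕ → ℕ) × (ℕ → ℕ → ℕ) × (ℕ → ℕ → ℕ)) := Prod.borelSpace
  let D : Set (RS a × (ℕ → ℕ) × (ℕ → ℕ → ℕ) × (ℕ → ℕ → ℕ)) :=
    {P | (∃ y, ∀ x, P.2.1 x ≠ y) ∧
      (∀ n i, P.2.2.2 n (P.2.2.1 n i) = i ∧ P.2.2.1 n (P.2.2.2 n i) = i) ∧
      (∀ n i (v : Fin (a i) → ℕ), P.1 i (P.2.2.1 n ∘ v) = P.1 i v) ∧
      ∀ n, ∀ i < n, P.2.2.1 n i = P.2.1 i}
  have hD : MeasurableSet D := by
    have e1 : Continuous fun P : RS a × (ℕ → ℕ) × (ℕ → ℕ → ℕ) × (ℕ → ℕ → ℕ) => P.2.1 :=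
      continuous_fst.comp continuous_snd
    have e2 : Continuous fun P : RS a × (ℕ → ℕ) × (ℕ → ℕ → ℕ) × (ℕ → ℕ → ℕ) => P.2.2.1 :=
      continuous_fst.comp (continuous_snd.comp continuous_snd)
    have e3 : Continuous fun P : RS a × (ℕ → ℕ) × (ℕ → ℕ → ℕ) × (ℕ → ℕ → ℕ) => P.2.2.2 :=
      continuous_snd.comp (continuous_snd.comp continuous_snd)
    have ev : Continuous fun q : (ℕ → ℕ) × ℕ => q.1 q.2 := by
      rw [continuous_iff_continuousAt]
      rintro ⟨f, w⟩
      have h1 : (fun q : (ℕ → ℕ) × ℕ => q.1 q.2) =ᶠ[nhds (f, w)] fun q => q.1 w := by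
        have h2 : ∀ᶠ q : (ℕ → ℕ) × ℕ in nhds (f, w), q.2 = w :=
          (continuous_snd.tendsto (f, w)) ((isOpen_discrete {w}).mem_nhds rfl)
        filter_upwards [h2] with q hq
        rw [hq]
      exact ContinuousAt.congr
        ((continuous_apply w).comp continuous_fst).continuousAt h1.symm
    refine MeasurableSet.inter ?_ (MeasurableSet.inter ?_ (MeasurableSet.inter ?_ ?_))
    · apply measurableSet_setOfPred.2
      refine Measurable.exists fun y => Measurable.forall fun x => Measurable.not ?_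
      exact kis_atom ((continuous_apply x).comp e1) continuous_const
    · apply measurableSet_setOfPred.2
      refine Measurable.forall fun n => Measurable.forall fun i => Measurable.and ?_ ?_
      · exact kis_atom (ev.comp (((continuous_apply n).comp e3).prodMk
          ((continuous_apply i).comp ((continuous_apply n).comp e2)))) continuous_const
      · exact kis_atom (ev.comp (((continuous_apply n).comp e2).prodMk
          ((continuous_apply i).comp ((continuous_apply n).comp e3)))) continuous_const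
    · apply measurableSet_setOfPred.2
      refine Measurable.forall fun n => Measurable.forall fun i => Measurable.forall fun v => ?_
      refine kis_atom ?_ ((kis_coord i v).comp continuous_fst)
      have h5 : Continuous fun P : RS a × (ℕ → ℕ) × (ℕ → ℕ → ℕ) × (ℕ → ℕ → ℕ) =>
          ((P.1 i, P.2.2.1 n ∘ v) : ((Fin (a i) → ℕ) → Bool) × (Fin (a i) → ℕ)) := by
        refine ((continuous_apply i).comp continuous_fst).prodMk ?_
        exact continuous_pi fun k => (continuous_apply (v k)).comp ((continuous_apply n).comp e2)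
      exact kis_eval.comp h5
    · apply measurableSet_setOfPred.2
      refine Measurable.forall fun n => Measurable.forall fun i => Measurable.imp
        measurable_const ?_
      exact kis_atom ((continuous_apply i).comp ((continuous_apply n).comp e2))
        ((continuous_apply i).comp e1)
  have himg : {x : RS a | ¬ Cli x} = Prod.fst '' D := by
    ext x
    constructor
    · intro hx
      have hx' : ¬ ∀ f, Lim (Aut x) f → Function.Surjective f := hx
      push Not at hx'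
      obtain ⟨f, hf, hs⟩ := hx'
      unfold Function.Surjective at hs
      push Not at hs
      choose σ hσ1 hσ2 using hf
      refine ⟨(x, f, fun n => σ n, fun n => (σ n).symm), ⟨hs, fun n i => ⟨by simp, by simp⟩,
        fun n i v => hσ1 n i v, fun n i hi => hσ2 n i hi⟩, rfl⟩
    · rintro ⟨⟨x', f, s, t⟩, ⟨h1, h2, h3, h4⟩, rfl⟩ hcli
      obtain ⟨y, hy⟩ := h1
      obtain ⟨z, hz⟩ := hcli f (fun n => ⟨⟨s n, t n, fun i => (h2 n i).1, fun i => (h2 n i).2⟩,
        fun i v => h3 n i v, fun i hi => h4 n i hi⟩) y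
      exact hy z hz
  rw [himg]
  exact hD.analyticSet.image_of_continuous continuous_fst

end Pool.Agent.Helper27.CF
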