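import Pool.Agent.Helper27.CF.Cls

set_option autoImplicit false

/-!
# The perfect set dichotomy and connected components
-/

namespace Pool.Agent.Helper27.CF

open Set
open MeasureTheory (AnalyticSet)
open Pool.Agent.H533R2.VO (RS RIso VC Dich)
open Pool.Agent.H533R2.VS

variable {a : ℕ → ℕ}

/-- two points occur together in a tuple of a relation -/
def Linked (x : RS a) (u v : ℕ) : Prop :=
  ∃ (i : ℕ) (t : Fin (a i) → ℕ), x i t = true ∧ (∃ j, t j = u) ∧ ∃ j, t j = v

/-- two points are in the same component -/
def Conn (x : RS a) : ℕ → ℕ → Prop := Relation.ReflTransGen (Linked x)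

theorem Linked.symm {x : RS a} {u v : ℕ} (h : Linked x u v) : Linked x v u := by
  obtain ⟨i, t, h1, h2, h3⟩ := h
  exact ⟨i, t, h1, h3, h2⟩

theorem Conn.symm {x : RS a} {u v : ℕ} (h : Conn x u v) : Conn x v u := by
  induction h with
  | refl => exact Relation.ReflTransGen.refl
  | tail _ h2 ih => exact Relation.ReflTransGen.head h2.symm ih

/-- all infinite components are in `V` -/
def CompIn (V : RS a → Prop) (x : RS a) : Prop := ∀ (u : ℕ) (e : ℕ → ℕ), Function.Injective e →
  (∀ z, Conn x u z ↔ ∃ n, e n = z) → V fun i v => x i (e ∘ v)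

/-- arities with a new binary relation -/
def bar (a : ℕ → ℕ) : ℕ → ℕ
  | 0 => 2
  | i + 1 => a i

open Classical in
/-- adding the component relation -/
noncomputable def cC (x : RS a) : RS (bar a)
  | 0 => fun t => decide (Conn x (t (0 : Fin 2)) (t (1 : Fin 2)))
  | i + 1 => x i

/-- forgetting the new relation -/
def dC (z : RS (bar a)) : RS a := fun i => z (i + 1)

/-- a new empty relation -/
def eC (z : RS a) : RS (bar a)
  | 0 => fun _ => false
  | i + 1 => z i

theorem dC_cC (x : RS a) : dC (cC x) = x := rfl

theorem dC_eC (x : RS a) : dC (eC x) = x := rfl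

/-- paths of length `n` -/
def Pth (x : RS a) : ℕ → ℕ → ℕ → Prop
  | 0, u, v => u = v
  | n + 1, u, v => ∃ w, Pth x n u w ∧ Linked x w v

theorem conn_iff {x : RS a} {u v : ℕ} : Conn x u v ↔ ∃ n, Pth x n u v := by
  constructor
  · intro h
    induction h with
    | refl => exact ⟨0, rfl⟩
    | tail _ h2 ih =>
      obtain ⟨n, hn⟩ := ih
      exact ⟨n + 1, _, hn, h2⟩
  · rintro ⟨n, hn⟩
    induction n generalizing v with
    | zero =>
      have h1 : u = v := hn
      rw [h1]
      exact Relation.ReflTransGen.refl
    | succ n ih =>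
      obtain ⟨w, h1, h2⟩ := hn
      exact Relation.ReflTransGen.tail (ih h1) h2

theorem meas_pth (n u v : ℕ) : Measurable fun x : RS a => Pth x n u v := by
  induction n generalizing v with
  | zero => exact measurable_const
  | succ n ih =>
    refine Measurable.exists fun w => Measurable.and (ih w) ?_
    refine Measurable.exists fun i => Measurable.exists fun t => Measurable.and ?_ measurable_const
    exact kis_atom (kis_coord i t) continuous_const

theorem meas_conn (u v : ℕ) : Measurable fun x : RS a => Conn x u v := by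
  have h : (fun x : RS a => Conn x u v) = fun x => ∃ n, Pth x n u v := by
    funext x
    exact propext conn_iff
  rw [h]
  exact Measurable.exists fun n => meas_pth n u v

theorem linked_act (σ : Equiv.Perm ℕ) (x : RS a) {u v : ℕ} (h : Linked x u v) :
    Linked (act σ x) (σ u) (σ v) := by
  obtain ⟨i, t, h1, ⟨j, rfl⟩, ⟨j', rfl⟩⟩ := h
  refine ⟨i, ⇑σ ∘ t, ?_, ⟨j, rfl⟩, ⟨j', rfl⟩⟩
  show x i (⇑σ.symm ∘ (⇑σ ∘ t)) = true
  have h2 : ⇑σ.symm ∘ (⇑σ ∘ t) = t := by
    funext k
    simp
  rw [h2]
  exact h1

theorem conn_act' (σ : Equiv.Perm ℕ) (x : RS a) {u v : ℕ} (h : Conn x u v) :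
    Conn (act σ x) (σ u) (σ v) := by
  induction h with
  | refl => exact Relation.ReflTransGen.refl
  | tail _ h2 ih => exact Relation.ReflTransGen.tail ih (linked_act σ x h2)

theorem act_symm_act (σ : Equiv.Perm ℕ) (x : RS a) : act σ.symm (act σ x) = x := by
  funext i v
  show x i (⇑σ.symm ∘ (⇑σ.symm.symm ∘ v)) = x i v
  congr 1
  funext k
  simp

theorem conn_act (σ : Equiv.Perm ℕ) (x : RS a) (u v : ℕ) :
    Conn (act σ x) u v ↔ Conn x (σ.symm u) (σ.symm v) := by
  constructor
  · intro h
    have h1 := conn_act' σ.symm _ h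
    rwa [act_symm_act] at h1
  · intro h
    have h1 := conn_act' σ x h
    simpa using h1

theorem canon_C : Canon (cC : RS a → RS (bar a)) dC := by
  classical
  refine ⟨?_, ?_, ?_, ?_⟩
  · refine measurable_pi_lambda _ fun n => ?_
    cases n with
    | zero =>
      refine measurable_pi_lambda _ fun t => ?_
      refine measurable_to_bool ?_
      have h1 := measurableSet_setOfPred.2 (meas_conn (a := a) (t (0 : Fin 2)) (t (1 : Fin 2)))
      convert h1 using 1
      ext x
      simp [cC]
    | succ i => exact measurable_pi_apply i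
  · exact continuous_pi fun i => continuous_apply (i + 1)
  · intro σ x
    funext n
    cases n with
    | zero =>
      funext t
      show decide _ = decide _
      refine decide_eq_decide.2 ?_
      exact conn_act σ x _ _
    | succ i => rfl
  · intro σ z
    rfl

theorem canon_E : Canon (dC : RS (bar a) → RS a) eC := by
  refine ⟨?_, ?_, fun σ x => rfl, ?_⟩
  · exact measurable_pi_lambda _ fun i => measurable_pi_apply (i + 1)
  · refine continuous_pi fun n => ?_
    cases n with
    | zero => exact continuous_const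
    | succ i => exact continuous_apply i
  · intro σ z
    funext n
    cases n with
    | zero => rfl
    | succ i => rfl

/-- the blocks -/
def V2' (V : RS a → Prop) (y : RS (bar a)) : Prop := V (dC y) ∧ eC (dC y) = y

theorem dec_false {b : ℕ → ℕ} (z : RS b) (h : ∀ i t, z i t = false) : DecG z := by
  classical
  refine ⟨fun i _ t => h i t, fun F hF => ?_⟩
  obtain ⟨u, v, hu, hv, huv⟩ := Finset.one_lt_card_iff.1 (show 1 < F.card by omega)
  refine ⟨{u, v}, ?_, ?_, ?_, fun p _ q _ w _ _ i => ?_⟩
  · intro w hw
    rcases Finset.mem_insert.1 hw with rfl | hw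
    · exact hu
    · rw [Finset.mem_singleton.1 hw]; exact hv
  · rw [Finset.card_pair huv]; omega
  · rw [Finset.card_pair huv]; omega
  · simp only [h]
    exact ⟨trivial, trivial⟩

theorem compIn_iff (V : RS a → Prop) (x : RS a) :
    (IsSum 0 (fun _ => false) DecG (V2' V) (cC x) ∧ dC (cC x) = x) ↔ CompIn V x := by
  classical
  have hc : ∀ u v, cC x 0 (p2 u v) = true ↔ Conn x u v := by
    intro u v
    show decide (Conn x u v) = true ↔ _
    rw [decide_eq_true_iff]
  have hblk : ∀ e : ℕ → ℕ, V2' V (fun i v => if i ≠ 0 ∧ false = false then cC x i (e ∘ v) else false)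
      ↔ V fun i v => x i (e ∘ v) := by
    intro e
    constructor
    · intro h
      exact h.1
    · intro h
      refine ⟨h, ?_⟩
      funext n
      cases n with
      | zero =>
        funext t
        show false = _
        simp
      | succ i => rfl
  constructor
  · rintro ⟨h, -⟩ u e he hz
    exact (hblk e).1 (h.blocks u e he fun z => (hc u z).trans (hz z))
  · intro h
    refine ⟨⟨fun u => (hc u u).2 Relation.ReflTransGen.refl,
      fun u v h1 => (hc v u).2 ((hc u v).1 h1).symm,
      fun u v w h1 h2 => (hc u w).2 (((hc u v).1 h1).trans ((hc v w).1 h2)), ?_, ?_,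
      fun u e he hz => (hblk e).2 (h u e he fun z => (hc u z).symm.trans (hz z)), ?_⟩, rfl⟩
    · intro i hi _ t ht j l
      rw [hc]
      cases i with
      | zero => exact absurd rfl hi
      | succ i => exact Relation.ReflTransGen.single ⟨i, t, ht, ⟨j, rfl⟩, ⟨l, rfl⟩⟩
    · intro i _ hk
      exact absurd hk (by decide)
    · intro e _ _
      apply dec_false
      intro i t
      simp

theorem bar_pos (ha : ∀ i, 0 < a i) : ∀ i, 0 < bar a i := by
  intro i
  cases i with
  | zero => exact two_pos
  | succ i => exact ha i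

theorem comp_vcu (ha : ∀ i, 0 < a i) {V : RS a → Prop} (hV : VCu V) : VCu (CompIn V) := by
  have h1 : VCu (V2' V) := vs_exc _ _ dC eC canon_E V hV
  have h2 := vs_clo (bar a) (bar_pos ha) 0 rfl (fun _ => false) DecG (V2' V) (vs_dec (bar a)) h1
  have h3 := vs_exc _ _ cC dC canon_C _ h2
  have h4 : (fun x : RS a => IsSum 0 (fun _ => false) DecG (V2' V) (cC x) ∧ dC (cC x) = x) =
      CompIn V := by
    funext x
    exact propext (compIn_iff V x)
  rwa [h4] at h3

theorem comp_coan {V : RS a → Prop} (hV : Coan V) (hi : Inv V) :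
    Coan (CompIn V) ∧ Inv (CompIn V) := by
  obtain ⟨h1, h2⟩ := vs_exk _ _ dC eC canon_E V hV hi
  have h3 : Coan (IsSum (a := bar a) 0 (fun _ => false) DecG (V2' V)) :=
    vs_kis (bar a) 0 (fun _ => false) DecG (V2' V) (vs_kde (bar a)).1 h1
  have h5 : Inv (IsSum (a := bar a) 0 (fun _ => false) DecG (V2' V)) :=
    vs_nis (bar a) 0 (fun _ => false) DecG (V2' V)
  have h6 := vs_exk _ _ cC dC canon_C _ h3 h5
  have h4 : (fun x : RS a => IsSum 0 (fun _ => false) DecG (V2' V) (cC x) ∧ dC (cC x) = x) =
      CompIn V := by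
    funext x
    exact propext (compIn_iff V x)
  rwa [h4] at h6

end Pool.Agent.Helper27.CF
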