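import Mathlib

set_option autoImplicit false

/-!
# Closed permutation groups which are not complete contain free groups

A group `G` of permutations of `ℕ` is complete if every pointwise limit of elements of `G` is
surjective. If `G` is closed in the group of all permutations and not complete, then it contains
free groups of countable rank.
-/

namespace Pool.Agent.Helper27.CF

open Set

/-- `f` is a pointwise limit of elements of `G` -/
def Lim (G : Subgroup (Equiv.Perm ℕ)) (f : ℕ → ℕ) : Prop :=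
  ∀ n, ∃ σ ∈ G, ∀ i < n, σ i = f i

/-- all pointwise limits of elements of `G` are surjective -/
def Complete (G : Subgroup (Equiv.Perm ℕ)) : Prop := ∀ f, Lim G f → Function.Surjective f

/-- `G` is closed for the pointwise convergence -/
def ClosedG (G : Subgroup (Equiv.Perm ℕ)) : Prop := ∀ σ : Equiv.Perm ℕ, Lim G σ → σ ∈ G

variable {G : Subgroup (Equiv.Perm ℕ)}

theorem Lim.agree {f : ℕ → ℕ} (h : Lim G f) (S : Finset ℕ) : ∃ σ ∈ G, ∀ i ∈ S, σ i = f i := by
  obtain ⟨σ, h1, h2⟩ := h (S.sup id + 1)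
  exact ⟨σ, h1, fun i hi => h2 i (Nat.lt_succ_of_le (Finset.le_sup (f := id) hi))⟩

theorem Lim.inj {f : ℕ → ℕ} (h : Lim G f) : Function.Injective f := by
  intro a b hab
  obtain ⟨σ, -, h2⟩ := h.agree {a, b}
  have h3 := h2 a (by simp)
  have h4 := h2 b (by simp)
  exact σ.injective (by rw [h3, h4, hab])

theorem Lim.comp {f : ℕ → ℕ} (h : Lim G f) {τ : Equiv.Perm ℕ} (hτ : τ ∈ G) :
    Lim G (fun i => τ (f i)) := by
  intro n
  obtain ⟨σ, h1, h2⟩ := h n
  exact ⟨τ * σ, G.mul_mem hτ h1, fun i hi => by simp [h2 i hi]⟩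

/-- there is a limit of elements of `G` whose range contains `E` but not `p` -/
def SNA (G : Subgroup (Equiv.Perm ℕ)) (p : ℕ) (E : Finset ℕ) : Prop :=
  ∃ f, Lim G f ∧ (∀ e ∈ E, e ∈ range f) ∧ p ∉ range f

theorem SNA.not_mem {p : ℕ} {E : Finset ℕ} (h : SNA G p E) : p ∉ E := by
  obtain ⟨f, -, h2, h3⟩ := h
  exact fun hp => h3 (h2 p hp)

theorem SNA.mono {p : ℕ} {E E' : Finset ℕ} (h : SNA G p E) (hE : E' ⊆ E) : SNA G p E' := by
  obtain ⟨f, h1, h2, h3⟩ := h
  exact ⟨f, h1, fun e he => h2 e (hE he), h3⟩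

theorem SNA.map {p : ℕ} {E : Finset ℕ} (h : SNA G p E) {τ : Equiv.Perm ℕ} (hτ : τ ∈ G) :
    SNA G (τ p) (E.image τ) := by
  obtain ⟨f, h1, h2, h3⟩ := h
  refine ⟨fun i => τ (f i), h1.comp hτ, ?_, ?_⟩
  · intro e he
    obtain ⟨e', he', rfl⟩ := Finset.mem_image.1 he
    obtain ⟨i, rfl⟩ := h2 e' he'
    exact ⟨i, rfl⟩
  · rintro ⟨i, hi⟩
    exact h3 ⟨i, τ.injective hi⟩

theorem SNA.move {q : ℕ} {R : Finset ℕ} (h : SNA G q R) (E : Finset ℕ) :
    ∃ τ ∈ G, (∀ r ∈ R, τ r = r) ∧ SNA G (τ q) E := by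
  classical
  obtain ⟨f, h1, h2, h3⟩ := h
  choose! g hg using h2
  obtain ⟨σ, hσ, hσ2⟩ := h1.agree (R.image g)
  obtain ⟨ρ, hρ, hρ2⟩ := h1.agree (R.image g ∪ E.image σ.symm)
  have hσ3 : ∀ r ∈ R, σ (g r) = r := fun r hr => by
    rw [hσ2 _ (Finset.mem_image_of_mem g hr), hg r hr]
  have hρ3 : ∀ r ∈ R, ρ (g r) = r := fun r hr => by
    rw [hρ2 _ (Finset.mem_union_left _ (Finset.mem_image_of_mem g hr)), hg r hr]
  have hρ4 : ∀ e ∈ E, ρ (σ.symm e) = f (σ.symm e) := fun e he =>
    hρ2 _ (Finset.mem_union_right _ (Finset.mem_image_of_mem _ he))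
  refine ⟨σ * ρ⁻¹, G.mul_mem hσ (G.inv_mem hρ), ?_, fun i => (σ * ρ⁻¹) (f i),
    h1.comp (G.mul_mem hσ (G.inv_mem hρ)), ?_, ?_⟩
  · intro r hr
    have h5 : ρ⁻¹ r = g r := by
      rw [Equiv.Perm.inv_eq_iff_eq, hρ3 r hr]
    rw [Equiv.Perm.mul_apply, h5, hσ3 r hr]
  · intro e he
    refine ⟨σ.symm e, ?_⟩
    show (σ * ρ⁻¹) (f (σ.symm e)) = e
    rw [← hρ4 e he, Equiv.Perm.mul_apply]
    simp
  · rintro ⟨i, hi⟩
    exact h3 ⟨i, (σ * ρ⁻¹).injective hi⟩

variable {α : Type}

/-- the permutation of a letter -/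
def lt (σ : α → Equiv.Perm ℕ) (z : α × Bool) : Equiv.Perm ℕ := cond z.2 (σ z.1) (σ z.1)⁻¹

/-- a finite set of committed values is respected -/
def Ok (C : Finset (α × ℕ × ℕ)) (σ : α → Equiv.Perm ℕ) : Prop := ∀ c ∈ C, σ c.1 c.2.1 = c.2.2

/-- the letter `z` moves `x` to `y` by the commitments -/
def Mv (C : Finset (α × ℕ × ℕ)) (z : α × Bool) (x y : ℕ) : Prop :=
  (z.2 = true ∧ (z.1, x, y) ∈ C) ∨ (z.2 = false ∧ (z.1, y, x) ∈ C)

theorem Mv.lt {C : Finset (α × ℕ × ℕ)} {σ : α → Equiv.Perm ℕ} (h : Ok C σ) {z : α × Bool}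
    {x y : ℕ} (hz : Mv C z x y) : lt σ z x = y := by
  rcases hz with ⟨h1, h2⟩ | ⟨h1, h2⟩
  · simp only [CF.lt, h1, cond_true]
    exact h _ h2
  · simp only [CF.lt, h1, cond_false]
    rw [Equiv.Perm.inv_eq_iff_eq]
    exact (h _ h2).symm

/-- evaluation of a word, first letter first -/
def ev (σ : α → Equiv.Perm ℕ) (L : List (α × Bool)) (p : ℕ) : ℕ :=
  L.foldl (fun x z => lt σ z x) p

theorem ev_cons (σ : α → Equiv.Perm ℕ) (z : α × Bool) (L : List (α × Bool)) (p : ℕ) :
    ev σ (z :: L) p = ev σ L (lt σ z p) := rfl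

theorem lt_mem {σ : α → Equiv.Perm ℕ} (h : ∀ a, σ a ∈ G) (z : α × Bool) : lt σ z ∈ G := by
  unfold lt
  cases z.2
  · exact G.inv_mem (h _)
  · exact h _

/-- the new commitment -/
def nw (z : α × Bool) (p p' : ℕ) : α × ℕ × ℕ := cond z.2 (z.1, p, p') (z.1, p', p)

theorem walk (L : List (α × Bool)) : ∀ (C : Finset (α × ℕ × ℕ)) (σ : α → Equiv.Perm ℕ)
    (E : Finset ℕ) (p : ℕ), (∀ a, σ a ∈ G) → Ok C σ →
    (∀ z x y, Mv C z x y → x ∈ E ∨ (x = p ∧ L.head? ≠ some z)) → SNA G p E →
    FreeGroup.IsReduced L →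
    ∃ C' : Finset (α × ℕ × ℕ), C ⊆ C' ∧ ∃ σ' : α → Equiv.Perm ℕ, (∀ a, σ' a ∈ G) ∧ Ok C' σ' ∧
      ∃ p', p' ∉ E ∧ (L ≠ [] → p' ≠ p) ∧ ∀ σ'' : α → Equiv.Perm ℕ, Ok C' σ'' → ev σ'' L p = p' := by
  classical
  induction L with
  | nil =>
    intro C σ E p hG hC _ hp _
    exact ⟨C, subset_rfl, σ, hG, hC, p, hp.not_mem, fun h => absurd rfl h, fun _ _ => rfl⟩
  | cons z L ih =>
    intro C σ E p hG hC hE hp hred
    set s := lt σ z with hs
    have hsG : s ∈ G := lt_mem hG z
    -- committed domain of `z`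
    let D : Finset ℕ := E.filter fun x => ∃ y, Mv C z x y
    have hD : ∀ x y, Mv C z x y → x ∈ D := by
      intro x y h
      rcases hE z x y h with h1 | ⟨-, h1⟩
      · exact Finset.mem_filter.2 ⟨h1, y, h⟩
      · exact absurd rfl h1
    obtain ⟨τ, hτ, hτ2, hτ3⟩ := ((hp.mono (Finset.filter_subset _ _ : D ⊆ E)).map hsG).move
      (insert p E)
    have hτR : ∀ x y, Mv C z x y → τ y = y := by
      intro x y h
      apply hτ2
      have h1 := h.lt hC
      rw [← h1]
      exact Finset.mem_image_of_mem _ (hD x y h)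
    set p1 := τ (s p) with hp1
    let σ1 : α → Equiv.Perm ℕ := Function.update σ z.1 (cond z.2 (τ * σ z.1) (σ z.1 * τ⁻¹))
    let C1 : Finset (α × ℕ × ℕ) := insert (nw z p p1) C
    have hG1 : ∀ a, σ1 a ∈ G := by
      intro a
      by_cases h : a = z.1
      · subst h
        simp only [σ1, Function.update_self]
        cases z.2
        · exact G.mul_mem (hG _) (G.inv_mem hτ)
        · exact G.mul_mem hτ (hG _)
      · simp only [σ1, Function.update_of_ne h]
        exact hG a
    have hC1 : Ok C1 σ1 := by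
      intro c hc
      rcases Finset.mem_insert.1 hc with rfl | hc
      · rcases hz : z with ⟨b, e⟩
        cases e
        · simp only [nw, hz, cond_false, σ1, Function.update_self, hp1, hs, lt,
            Equiv.Perm.mul_apply]
          simp
        · simp only [nw, hz, cond_true, σ1, Function.update_self, hp1, hs, lt,
            Equiv.Perm.mul_apply]
      · by_cases h : c.1 = z.1
        · rw [h]
          simp only [σ1, Function.update_self]
          rcases hz : z with ⟨b, e⟩
          have hb : c.1 = b := by rw [h, hz]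
          cases e
          · have h2 : Mv C z c.2.2 c.2.1 := by
              rw [hz]
              exact Or.inr ⟨rfl, by rw [← hb]; exact hc⟩
            have h3 := hτR _ _ h2
            have h4 := hC c hc
            simp only [cond_false, Equiv.Perm.mul_apply]
            rw [Equiv.Perm.inv_eq_iff_eq.2 h3.symm, ← hb]
            exact h4
          · have h2 : Mv C z c.2.1 c.2.2 := by
              rw [hz]
              exact Or.inl ⟨rfl, by rw [← hb]; exact hc⟩
            have h3 := hτR _ _ h2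
            have h4 := hC c hc
            simp only [cond_true, Equiv.Perm.mul_apply]
            rw [← hb, h4]
            exact h3
        · simp only [σ1, Function.update_of_ne h]
          exact hC c hc
    have hE1 : ∀ z' x y, Mv C1 z' x y →
        x ∈ insert p E ∨ (x = p1 ∧ L.head? ≠ some z') := by
      intro z' x y h
      have h0 : Mv C z' x y ∨ (z' = z ∧ x = p) ∨ (z' = (z.1, !z.2) ∧ x = p1) := by
        rcases h with ⟨h1, h2⟩ | ⟨h1, h2⟩
        · rcases Finset.mem_insert.1 h2 with h2 | h2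
          · right
            rcases hz : z with ⟨b, e⟩
            cases e
            · simp only [nw, hz, cond_false, Prod.mk.injEq] at h2
              right
              exact ⟨Prod.ext h2.1 (by simpa using h1), h2.2.1⟩
            · simp only [nw, hz, cond_true, Prod.mk.injEq] at h2
              left
              exact ⟨Prod.ext h2.1 h1, h2.2.1⟩
          · exact Or.inl (Or.inl ⟨h1, h2⟩)
        · rcases Finset.mem_insert.1 h2 with h2 | h2
          · right
            rcases hz : z with ⟨b, e⟩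
            cases e
            · simp only [nw, hz, cond_false, Prod.mk.injEq] at h2
              left
              exact ⟨Prod.ext h2.1 h1, h2.2.2⟩
            · simp only [nw, hz, cond_true, Prod.mk.injEq] at h2
              right
              exact ⟨Prod.ext h2.1 (by simpa using h1), h2.2.2⟩
          · exact Or.inl (Or.inr ⟨h1, h2⟩)
      rcases h0 with h0 | ⟨-, h0⟩ | ⟨h0, h1⟩
      · left
        rcases hE z' x y h0 with h1 | ⟨h1, -⟩
        · exact Finset.mem_insert_of_mem h1
        · rw [h1]; exact Finset.mem_insert_self _ _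
      · left
        rw [h0]; exact Finset.mem_insert_self _ _
      · right
        refine ⟨h1, fun hh => ?_⟩
        cases L with
        | nil => simp at hh
        | cons z'' L'' =>
          simp only [List.head?_cons, Option.some.injEq] at hh
          have := (FreeGroup.isReduced_cons_cons.1 hred).1
          rw [hh, h0] at this
          simp at this
    have hred1 : FreeGroup.IsReduced L := List.IsChain.tail hred
    obtain ⟨C', hCC, σ', hG', hC', p', hp', -, hev⟩ := ih C1 σ1 (insert p E) p1 hG1 hC1 hE1 hτ3 hred1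
    refine ⟨C', (Finset.subset_insert _ _).trans hCC, σ', hG', hC', p',
      fun h => hp' (Finset.mem_insert_of_mem h), fun _ h => hp' (h ▸ Finset.mem_insert_self _ _),
      fun σ'' h => ?_⟩
    have h1 : lt σ'' z p = p1 := by
      apply Mv.lt h
      have h2 : nw z p p1 ∈ C' := hCC (Finset.mem_insert_self _ _)
      rcases hz : z with ⟨b, e⟩
      cases e
      · exact Or.inr ⟨rfl, by simpa [nw, hz] using h2⟩
      · exact Or.inl ⟨rfl, by simpa [nw, hz] using h2⟩
    rw [ev_cons, h1]
    exact hev σ'' h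

end Pool.Agent.Helper27.CF
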