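import Pool.Agent.Helper27.CF.Free

set_option autoImplicit false

/-!
# Closed permutation groups which are not complete contain free groups: the construction
-/

namespace Pool.Agent.Helper27.CF

open Set

variable {G : Subgroup (Equiv.Perm ℕ)} {α : Type}

/-- states of the construction -/
def State (G : Subgroup (Equiv.Perm ℕ)) (α : Type) : Type :=
  {s : Finset (α × ℕ × ℕ) × (α → Equiv.Perm ℕ) // (∀ a, s.2 a ∈ G) ∧ Ok s.1 s.2}

/-- tasks of the construction -/
abbrev Task (α : Type) : Type := (α × ℕ) ⊕ (α × ℕ) ⊕ List (α × Bool)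

/-- the task is done by the commitments -/
def Done (C : Finset (α × ℕ × ℕ)) : Task α → Prop
  | Sum.inl (a, x) => ∃ y, (a, x, y) ∈ C
  | Sum.inr (Sum.inl (a, y)) => ∃ x, (a, x, y) ∈ C
  | Sum.inr (Sum.inr L) => L ≠ [] → FreeGroup.IsReduced L →
      ∃ p p', p' ≠ p ∧ ∀ σ : α → Equiv.Perm ℕ, Ok C σ → ev σ L p = p'

theorem Ok.mono {C C' : Finset (α × ℕ × ℕ)} {σ : α → Equiv.Perm ℕ} (h : Ok C' σ) (hC : C ⊆ C') :
    Ok C σ := fun c hc => h c (hC hc)

theorem exists_sna (hnc : ¬ Complete G) (E : Finset ℕ) : ∃ p, SNA G p E := by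
  unfold Complete at hnc
  push Not at hnc
  obtain ⟨f, hf, hs⟩ := hnc
  unfold Function.Surjective at hs
  push Not at hs
  obtain ⟨p, hp⟩ := hs
  have h1 : SNA G p ∅ := ⟨f, hf, by simp, by
    rintro ⟨i, hi⟩
    exact hp i hi⟩
  obtain ⟨τ, -, -, h2⟩ := h1.move E
  exact ⟨_, h2⟩

theorem step (hnc : ¬ Complete G) (s : State G α) (t : Task α) :
    ∃ s' : State G α, s.1.1 ⊆ s'.1.1 ∧ Done s'.1.1 t := by
  classical
  obtain ⟨⟨C, σ⟩, hG, hC⟩ := s
  simp only at hG hC
  match t with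
  | Sum.inl (a, x) =>
    refine ⟨⟨(insert (a, x, σ a x) C, σ), hG, ?_⟩, Finset.subset_insert _ _,
      ⟨σ a x, Finset.mem_insert_self _ _⟩⟩
    intro c hc
    rcases Finset.mem_insert.1 hc with rfl | hc
    · rfl
    · exact hC c hc
  | Sum.inr (Sum.inl (a, y)) =>
    refine ⟨⟨(insert (a, (σ a).symm y, y) C, σ), hG, ?_⟩, Finset.subset_insert _ _,
      ⟨(σ a).symm y, Finset.mem_insert_self _ _⟩⟩
    intro c hc
    rcases Finset.mem_insert.1 hc with rfl | hc
    · simp
    · exact hC c hc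
  | Sum.inr (Sum.inr L) =>
    by_cases hL : L ≠ [] ∧ FreeGroup.IsReduced L
    · obtain ⟨hL1, hL2⟩ := hL
      let E : Finset ℕ := C.image (fun c => c.2.1) ∪ C.image (fun c => c.2.2)
      obtain ⟨p, hp⟩ := exists_sna hnc E
      obtain ⟨C', h1, σ', h2, h3, p', -, h5, h6⟩ := walk L C σ E p hG hC (by
        intro z x y h
        left
        rcases h with ⟨-, h⟩ | ⟨-, h⟩
        · exact Finset.mem_union_left _ (Finset.mem_image.2 ⟨_, h, rfl⟩)
        · exact Finset.mem_union_right _ (Finset.mem_image.2 ⟨_, h, rfl⟩)) hp hL2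
      exact ⟨⟨(C', σ'), h2, h3⟩, h1, fun _ _ => ⟨p, p', h5 hL1, h6⟩⟩
    · refine ⟨⟨(C, σ), hG, hC⟩, subset_rfl, fun h1 h2 => absurd ⟨h1, h2⟩ hL⟩

theorem ev_eq (σ : α → Equiv.Perm ℕ) (L : List (α × Bool)) (p : ℕ) :
    ev σ L p = FreeGroup.lift σ (FreeGroup.mk L.reverse) p := by
  induction L generalizing p with
  | nil => simp [ev]
  | cons z L ih =>
    rw [ev_cons, ih]
    simp only [FreeGroup.lift_mk, List.reverse_cons, List.map_append, List.map_cons, List.map_nil,
      List.prod_append, List.prod_cons, List.prod_nil, mul_one, Equiv.Perm.mul_apply]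
    rfl

theorem reduced_reverse {L : List (α × Bool)} (h : FreeGroup.IsReduced L) :
    FreeGroup.IsReduced L.reverse := by
  unfold FreeGroup.IsReduced at *
  rw [List.isChain_reverse]
  refine h.imp ?_
  intro a b h1 h2
  exact (h1 h2.symm).symm

theorem exists_free [Countable α] (hcl : ClosedG G) (hnc : ¬ Complete G) :
    ∃ σ : α → Equiv.Perm ℕ, (∀ a, σ a ∈ G) ∧ Function.Injective (FreeGroup.lift σ) := by
  classical
  have : Nonempty (Task α) := ⟨Sum.inr (Sum.inr [])⟩
  obtain ⟨e, he⟩ := exists_surjective_nat (Task α)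
  choose F hF1 hF2 using step (G := G) (α := α) hnc
  let s0 : State G α := ⟨(∅, fun _ => 1), fun _ => G.one_mem, by intro c hc; simp at hc⟩
  let S : ℕ → State G α := fun n => Nat.rec s0 (fun n s => F s (e n)) n
  have hS : ∀ n, S (n + 1) = F (S n) (e n) := fun n => rfl
  have hmono : Monotone fun n => (S n).1.1 := by
    refine monotone_nat_of_le_succ fun n => ?_
    show (S n).1.1 ⊆ (S (n + 1)).1.1
    rw [hS]
    exact hF1 _ _
  have hdone : ∀ t : Task α, ∃ n, Done (S n).1.1 t := by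
    intro t
    obtain ⟨n, rfl⟩ := he t
    exact ⟨n + 1, by rw [hS]; exact hF2 _ _⟩
  have hval : ∀ n, ∀ c ∈ (S n).1.1, (S n).1.2 c.1 c.2.1 = c.2.2 := fun n => (S n).2.2
  -- the limits
  have h1 : ∀ a x, ∃ y n, (a, x, y) ∈ (S n).1.1 := by
    intro a x
    obtain ⟨n, y, h⟩ := hdone (Sum.inl (a, x))
    exact ⟨y, n, h⟩
  choose g N hg using h1
  have h2 : ∀ a y, ∃ x n, (a, x, y) ∈ (S n).1.1 := by
    intro a y
    obtain ⟨n, x, h⟩ := hdone (Sum.inr (Sum.inl (a, y)))
    exact ⟨x, n, h⟩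
  choose g' N' hg' using h2
  have hfun : ∀ a x y y' n n', (a, x, y) ∈ (S n).1.1 → (a, x, y') ∈ (S n').1.1 → y = y' := by
    intro a x y y' n n' h h'
    have e1 := hval (max n n') _ (hmono (le_max_left n n') h)
    have e2 := hval (max n n') _ (hmono (le_max_right n n') h')
    exact e1.symm.trans e2
  have hinj : ∀ a x x' y n n', (a, x, y) ∈ (S n).1.1 → (a, x', y) ∈ (S n').1.1 → x = x' := by
    intro a x x' y n n' h h'
    have e1 := hval (max n n') _ (hmono (le_max_left n n') h)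
    have e2 := hval (max n n') _ (hmono (le_max_right n n') h')
    exact ((S (max n n')).1.2 a).injective (e1.trans e2.symm)
  let σ : α → Equiv.Perm ℕ := fun a =>
    { toFun := g a
      invFun := g' a
      left_inv := fun x => hinj a _ _ _ _ _ (hg' a (g a x)) (hg a x)
      right_inv := fun y => hfun a _ _ _ _ _ (hg a (g' a y)) (hg' a y) }
  have hok : ∀ n, Ok (S n).1.1 σ := by
    intro n c hc
    exact hfun c.1 c.2.1 _ _ _ _ (hg c.1 c.2.1) hc
  have hσG : ∀ a, σ a ∈ G := by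
    intro a
    apply hcl
    intro n
    obtain ⟨m, hm⟩ : ∃ m, ∀ i < n, N a i ≤ m := by
      refine ⟨(Finset.range n).sup (N a), fun i hi => Finset.le_sup (Finset.mem_range.2 hi)⟩
    exact ⟨(S m).1.2 a, (S m).2.1 a, fun i hi => hval m _ (hmono (hm i hi) (hg a i))⟩
  refine ⟨σ, hσG, ?_⟩
  rw [injective_iff_map_eq_one]
  intro w hw
  by_contra hne
  have hL1 : w.toWord.reverse ≠ [] := by
    intro h
    rw [List.reverse_eq_nil_iff, FreeGroup.toWord_eq_nil_iff] at h
    exact hne h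
  have hL2 : FreeGroup.IsReduced w.toWord.reverse := reduced_reverse FreeGroup.isReduced_toWord
  obtain ⟨n, hn⟩ := hdone (Sum.inr (Sum.inr w.toWord.reverse))
  obtain ⟨p, p', hpp, h3⟩ := hn hL1 hL2
  have h4 := h3 σ (hok n)
  rw [ev_eq, List.reverse_reverse, FreeGroup.mk_toWord, hw] at h4
  exact hpp h4.symm

end Pool.Agent.Helper27.CF
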