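import Pool.Agent.H899R2.VP.Dst

set_option autoImplicit false

/-!
# Generic structures for back-and-forth equivalence at a countable limit level
-/

namespace Pool.Agent.Helper27.CF

open Set
open Pool.Agent.H899R2.VP

variable {a : ℕ → ℕ}

/-- the pairs of the first `n` entries of two sequences -/
def gr (n : ℕ) (s t : ℕ → ℕ) : Set (ℕ × ℕ) := {u | ∃ i < n, u = (s i, t i)}

theorem gr_mem {n i : ℕ} (s t : ℕ → ℕ) (h : i < n) : (s i, t i) ∈ gr n s t := ⟨i, h, rfl⟩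

theorem gr_mono {m n : ℕ} (s t : ℕ → ℕ) (h : m ≤ n) : gr m s t ⊆ gr n s t := by
  rintro u ⟨i, hi, rfl⟩
  exact ⟨i, lt_of_lt_of_le hi h, rfl⟩

theorem gr_congr {n : ℕ} {s t s' t' : ℕ → ℕ} (hs : ∀ i < n, s i = s' i) (ht : ∀ i < n, t i = t' i) :
    gr n s t = gr n s' t' := by
  ext u
  constructor
  · rintro ⟨i, hi, rfl⟩
    exact ⟨i, hi, by rw [hs i hi, ht i hi]⟩
  · rintro ⟨i, hi, rfl⟩
    exact ⟨i, hi, by rw [hs i hi, ht i hi]⟩

theorem inv_gr (n : ℕ) (s t : ℕ → ℕ) : inv (gr n s t) = gr n t s := by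
  ext ⟨x, y⟩
  rw [mem_inv]
  constructor
  · rintro ⟨i, hi, h⟩
    simp only [Prod.mk.injEq] at h
    exact ⟨i, hi, by rw [h.1, h.2]⟩
  · rintro ⟨i, hi, h⟩
    simp only [Prod.mk.injEq] at h
    exact ⟨i, hi, by rw [h.1, h.2]⟩

theorem gr_comp (n : ℕ) (s t u : ℕ → ℕ) : gr n s u ⊆ comp (gr n s t) (gr n t u) := by
  rintro _ ⟨i, hi, rfl⟩
  exact ⟨t i, ⟨i, hi, rfl⟩, ⟨i, hi, rfl⟩⟩

theorem gr_succ (n : ℕ) (s t : ℕ → ℕ) : gr (n + 1) s t = insert (s n, t n) (gr n s t) := by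
  ext u
  constructor
  · rintro ⟨i, hi, rfl⟩
    rcases Nat.lt_succ_iff_lt_or_eq.1 hi with hi | rfl
    · exact Or.inr ⟨i, hi, rfl⟩
    · exact Or.inl rfl
  · rintro (rfl | ⟨i, hi, rfl⟩)
    · exact ⟨n, lt_add_one n, rfl⟩
    · exact ⟨i, lt_trans hi (lt_add_one n), rfl⟩

theorem gr_update (n : ℕ) (s t : ℕ → ℕ) (y : ℕ) :
    gr (n + 1) s (Function.update t n y) = insert (s n, y) (gr n s t) := by
  rw [gr_succ, Function.update_self]
  congr 1
  exact gr_congr (fun i _ => rfl) (fun i hi => Function.update_of_ne hi.ne _ _)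

theorem BF.gsymm {M N : St a} {o : Ordinal.{0}} {n : ℕ} {s t : ℕ → ℕ}
    (h : BF M N univ univ o (gr n s t)) : BF N M univ univ o (gr n t s) := by
  have := h.symm
  rwa [inv_gr] at this

theorem BF.gcomp {M N K : St a} {o : Ordinal.{0}} {n : ℕ} {s t u : ℕ → ℕ}
    (h : BF M N univ univ o (gr n s t)) (h' : BF N K univ univ o (gr n t u)) :
    BF M K univ univ o (gr n s u) := (h.comp h').subset (gr_comp n s t u)

theorem BF.gle {M N : St a} {o o' : Ordinal.{0}} {n n' : ℕ} {s t : ℕ → ℕ}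
    (h : BF M N univ univ o (gr n s t)) (ho : o' ≤ o) (hn : n' ≤ n) :
    BF M N univ univ o' (gr n' s t) := (h.mono ho).subset (gr_mono s t hn)

theorem BF.grefl (M : St a) (o : Ordinal.{0}) (n : ℕ) (s : ℕ → ℕ) :
    BF M M univ univ o (gr n s s) :=
  (BF.refl M univ o).subset (by
    rintro u ⟨i, -, rfl⟩
    exact ⟨rfl, mem_univ _⟩)

theorem BF.forth_n {M N : St a} {o : Ordinal.{0}} (m : ℕ) : ∀ {k : ℕ} {s t : ℕ → ℕ},
    BF M N univ univ (o + m) (gr k s t) →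
    ∃ t', (∀ i < k, t' i = t i) ∧ BF M N univ univ o (gr (k + m) s t') := by
  induction m with
  | zero =>
    intro k s t h
    exact ⟨t, fun _ _ => rfl, by simpa using h⟩
  | succ m ih =>
    intro k s t h
    have h1 : o + m < o + ((m + 1 : ℕ) : Ordinal.{0}) := by
      rw [Nat.cast_add, Nat.cast_one, ← add_assoc]
      exact lt_add_one _
    obtain ⟨y, -, hy⟩ := h.forth h1 (mem_univ (s k))
    rw [← gr_update k s t y] at hy
    obtain ⟨t', h2, h3⟩ := ih hy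
    refine ⟨t', fun i hi => ?_, ?_⟩
    · rw [h2 i (by omega), Function.update_of_ne hi.ne]
    · rw [show k + (m + 1) = k + 1 + m by omega]
      exact h3

theorem BF.injOn {M N : St a} {o : Ordinal.{0}} {n : ℕ} {s t : ℕ → ℕ}
    (h : BF M N univ univ o (gr n s t)) (hs : InjOn s (Iio n)) : InjOn t (Iio n) := by
  intro i hi j hj hij
  exact hs hi hj ((h.piso.1 _ (gr_mem s t hi) _ (gr_mem s t hj)).2 hij)

/-- conditions -/
structure Cond (a : ℕ → ℕ) : Type 1 where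
  M : St a
  n : ℕ
  s : ℕ → ℕ
  l : Ordinal.{0}

/-- `q` extends `p` -/
def Ext (p q : Cond a) : Prop := p.l ≤ q.l ∧ p.n ≤ q.n ∧
  BF p.M q.M univ univ (p.l + 1) (gr p.n p.s q.s)

theorem Ext.refl (p : Cond a) : Ext p p := ⟨le_rfl, le_rfl, BF.grefl _ _ _ _⟩

theorem Ext.trans {p q r : Cond a} (h : Ext p q) (h' : Ext q r) : Ext p r :=
  ⟨h.1.trans h'.1, h.2.1.trans h'.2.1, BF.gcomp h.2.2 (BF.gle h'.2.2 (by gcongr; exact h.1) h.2.1)⟩

/-- legal conditions -/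
def Ok' (𝒦 : Set (St a)) (γ : Ordinal.{0}) (p : Cond a) : Prop :=
  p.M ∈ 𝒦 ∧ p.l < γ ∧ InjOn p.s (Iio p.n)

/-- the structure `N` meets the condition -/
def Meets (N : St a) (p : Cond a) : Prop := BF N p.M univ univ p.l (gr p.n id p.s)

theorem exists_fresh (n : ℕ) (s : ℕ → ℕ) : ∃ z, ∀ i < n, s i ≠ z := by
  obtain ⟨z, hz⟩ := Infinite.exists_notMem_finset ((Finset.range n).image s)
  exact ⟨z, fun i hi h => hz (Finset.mem_image.2 ⟨i, Finset.mem_range.2 hi, h⟩)⟩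

theorem injOn_update {n : ℕ} {s : ℕ → ℕ} (h : InjOn s (Iio n)) {z : ℕ} (hz : ∀ i < n, s i ≠ z) :
    InjOn (Function.update s n z) (Iio (n + 1)) := by
  intro i hi j hj hij
  simp only [mem_Iio, Nat.lt_succ_iff_lt_or_eq] at hi hj
  rcases hi with hi | rfl
  · rcases hj with hj | rfl
    · rw [Function.update_of_ne hi.ne, Function.update_of_ne hj.ne] at hij
      exact h hi hj hij
    · rw [Function.update_of_ne hi.ne, Function.update_self] at hij
      exact absurd hij (hz i hi)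
  · rcases hj with hj | rfl
    · rw [Function.update_of_ne hj.ne, Function.update_self] at hij
      exact absurd hij.symm (hz j hj)
    · rfl

/-- adding an element to a condition -/
theorem ext_add {𝒦 : Set (St a)} {γ : Ordinal.{0}} {p : Cond a} (h : Ok' 𝒦 γ p) {z : ℕ}
    (hz : ∀ i < p.n, p.s i ≠ z) :
    Ok' 𝒦 γ ⟨p.M, p.n + 1, Function.update p.s p.n z, p.l⟩ ∧
      Ext p ⟨p.M, p.n + 1, Function.update p.s p.n z, p.l⟩ := by
  refine ⟨⟨h.1, h.2.1, injOn_update h.2.2 hz⟩, le_rfl, Nat.le_succ _, ?_⟩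
  have h1 : gr p.n p.s (Function.update p.s p.n z) = gr p.n p.s p.s :=
    gr_congr (fun i _ => rfl) (fun i hi => Function.update_of_ne hi.ne _ _)
  show BF p.M p.M univ univ (p.l + 1) (gr p.n p.s (Function.update p.s p.n z))
  rw [h1]
  exact BF.grefl _ _ _ _

/-- raising the level -/
theorem ext_lvl {𝒦 : Set (St a)} {γ : Ordinal.{0}} {p : Cond a} (h : Ok' 𝒦 γ p) {o : Ordinal.{0}}
    (ho : o < γ) : Ok' 𝒦 γ ⟨p.M, p.n, p.s, max p.l o⟩ ∧ Ext p ⟨p.M, p.n, p.s, max p.l o⟩ :=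
  ⟨⟨h.1, max_lt h.2.1 ho, h.2.2⟩, le_max_left _ _, le_rfl, BF.grefl _ _ _ _⟩

theorem ext_len {𝒦 : Set (St a)} {γ : Ordinal.{0}} {p : Cond a} (h : Ok' 𝒦 γ p) (m : ℕ) :
    ∃ q : Cond a, Ok' 𝒦 γ q ∧ Ext p q ∧ m ≤ q.n := by
  induction m with
  | zero => exact ⟨p, h, Ext.refl p, Nat.zero_le _⟩
  | succ m ih =>
    obtain ⟨q, h1, h2, h3⟩ := ih
    obtain ⟨z, hz⟩ := exists_fresh q.n q.s
    obtain ⟨h4, h5⟩ := ext_add h1 hz
    exact ⟨_, h4, h2.trans h5, Nat.succ_le_succ h3⟩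

/-- one step of the construction of the generic structure -/
theorem gen_step {𝒦 : Set (St a)} {γ : Ordinal.{0}} {D : Cond a → Prop}
    (up : ∀ q r, D q → Ok' 𝒦 γ r → Ext q r → D r) {p0 : Cond a}
    (dense : ∀ q, Ok' 𝒦 γ q → Ext p0 q → ∃ r, Ok' 𝒦 γ r ∧ Ext q r ∧ D r)
    {p : Cond a} (hp : Ok' 𝒦 γ p) (h0 : Ext p0 p) {o : Ordinal.{0}} (ho : o < γ)
    {m : Cond a} (hm : Ext m p) (y : ℕ) :
    ∃ r, Ok' 𝒦 γ r ∧ Ext p r ∧ D r ∧ o ≤ r.l ∧ p.n + 1 ≤ r.n ∧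
      ∃ i < r.n, BF m.M r.M univ univ m.l (insert (y, r.s i) (gr m.n m.s r.s)) := by
  obtain ⟨r1, h1, h2, h3⟩ := dense p hp h0
  obtain ⟨h4, h5⟩ := ext_lvl h1 ho
  set r2 : Cond a := ⟨r1.M, r1.n, r1.s, max r1.l o⟩ with hr2
  have h6 : Ext m r2 := hm.trans (h2.trans h5)
  obtain ⟨y', -, hy'⟩ := h6.2.2.forth (lt_add_one _) (mem_univ y)
  obtain ⟨r3, h7, h8, i, hi, h9⟩ : ∃ r3, Ok' 𝒦 γ r3 ∧ Ext r2 r3 ∧
      ∃ i < r3.n, BF m.M r3.M univ univ m.l (insert (y, r3.s i) (gr m.n m.s r3.s)) := by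
    by_cases hex : ∃ i < r2.n, r2.s i = y'
    · obtain ⟨i, hi, hi2⟩ := hex
      exact ⟨r2, h4, Ext.refl _, i, hi, by rw [hi2]; exact hy'⟩
    · push Not at hex
      obtain ⟨h7, h8⟩ := ext_add h4 hex
      refine ⟨_, h7, h8, r2.n, lt_add_one _, ?_⟩
      show BF m.M r2.M univ univ m.l (insert (y, Function.update r2.s r2.n y' r2.n)
        (gr m.n m.s (Function.update r2.s r2.n y')))
      rw [Function.update_self]
      have h10 : gr m.n m.s (Function.update r2.s r2.n y') = gr m.n m.s r2.s :=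
        gr_congr (fun i _ => rfl)
          (fun i hi => Function.update_of_ne (lt_of_lt_of_le hi h6.2.1).ne _ _)
      rw [h10]
      exact hy'
  obtain ⟨z, hz⟩ := exists_fresh r3.n r3.s
  obtain ⟨h10, h11⟩ := ext_add h7 hz
  have h12 : Ext p r3 := h2.trans (h5.trans h8)
  refine ⟨_, h10, h12.trans h11, up _ _ h3 h10 (h5.trans (h8.trans h11)),
    (le_max_right r1.l o).trans h8.1, Nat.succ_le_succ h12.2.1, i, lt_trans hi (lt_add_one _), ?_⟩
  show BF m.M r3.M univ univ m.l (insert (y, Function.update r3.s r3.n z i)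
    (gr m.n m.s (Function.update r3.s r3.n z)))
  rw [Function.update_of_ne hi.ne]
  have h13 : gr m.n m.s (Function.update r3.s r3.n z) = gr m.n m.s r3.s :=
    gr_congr (fun i _ => rfl)
      (fun i hi => Function.update_of_ne (lt_of_lt_of_le hi (h6.trans h8).2.1).ne _ _)
  rw [h13]
  exact h9

end Pool.Agent.Helper27.CF
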