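import Pool.Agent.Helper27.CF.Gen

set_option autoImplicit false

/-!
# Generic structures for back-and-forth equivalence at a countable limit level: existence
-/

namespace Pool.Agent.Helper27.CF

open Set
open Pool.Agent.H899R2.VP

variable {a : ℕ → ℕ}

/-- recursion with history -/
theorem exists_history {X : Type*} (x0 : X) (R : ℕ → (ℕ → X) → X → Prop)
    (hstep : ∀ k (h : ℕ → X), h 0 = x0 → (∀ i < k, R i h (h (i + 1))) → ∃ r, R k h r)
    (hloc : ∀ k (h h' : ℕ → X) r, (∀ i ≤ k, h i = h' i) → R k h r → R k h' r) :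
    ∃ P : ℕ → X, P 0 = x0 ∧ ∀ k, R k P (P (k + 1)) := by
  classical
  have hX : Nonempty X := ⟨x0⟩
  -- choose a next element
  have h1 : ∀ k (h : ℕ → X), ∃ r, (∃ r', R k h r') → R k h r := by
    intro k h
    by_cases hc : ∃ r', R k h r'
    · exact ⟨hc.choose, fun _ => hc.choose_spec⟩
    · exact ⟨x0, fun hh => absurd hh hc⟩
  choose F hF using h1
  let H : ℕ → ℕ → X := fun k => Nat.rec (fun _ => x0) (fun k h => Function.update h (k + 1) (F k h)) k
  have hH : ∀ k, H (k + 1) = Function.update (H k) (k + 1) (F k (H k)) := fun k => rfl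
  have hstab : ∀ k i, i ≤ k → H k i = H i i := by
    intro k
    induction k with
    | zero => intro i hi; rw [Nat.le_zero.1 hi]
    | succ k ih =>
      intro i hi
      rcases Nat.le_succ_iff.1 hi with hi | rfl
      · rw [hH, Function.update_of_ne (by omega)]
        exact ih i hi
      · rfl
  let P : ℕ → X := fun k => H k k
  have hP0 : P 0 = x0 := rfl
  have hPH : ∀ k i, i ≤ k → P i = H k i := fun k i hi => (hstab k i hi).symm
  have hPs : ∀ k, P (k + 1) = F k (H k) := by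
    intro k
    show H (k + 1) (k + 1) = _
    rw [hH, Function.update_self]
  refine ⟨P, hP0, fun k => ?_⟩
  induction k using Nat.strong_induction_on with
  | _ k ih =>
    have h2 := hF k (H k) ?_
    · rw [hPs]
      exact hloc k (H k) P _ (fun i hi => (hPH k i hi).symm) h2
    · refine hstep k (H k) (by rw [← hPH k 0 (Nat.zero_le _)]; exact hP0) ?_
      intro i hi
      have h3 := ih i hi
      rw [← hPH k (i + 1) hi]
      exact hloc i P (H k) _ (fun j hj => hPH k j (by omega)) h3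

/-- the relation between the conditions of the sequence -/
def Rel (𝒦 : Set (St a)) (γ : Ordinal.{0}) (D : ℕ → Cond a → Prop) (δ : ℕ → Ordinal.{0}) (k : ℕ)
    (h : ℕ → Cond a) (r : Cond a) : Prop :=
  Ok' 𝒦 γ r ∧ Ext (h k) r ∧ D k r ∧ δ k ≤ r.l ∧ (h k).n + 1 ≤ r.n ∧
    ∃ i < r.n, BF (h k.unpair.1).M r.M univ univ (h k.unpair.1).l
      (insert (k.unpair.2, r.s i) (gr (h k.unpair.1).n (h k.unpair.1).s r.s))

theorem exists_seq {𝒦 : Set (St a)} {γ : Ordinal.{0}} {D : ℕ → Cond a → Prop}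
    (up : ∀ k q r, D k q → Ok' 𝒦 γ r → Ext q r → D k r) {p0 : Cond a} (hp0 : Ok' 𝒦 γ p0)
    (dense : ∀ k q, Ok' 𝒦 γ q → Ext p0 q → ∃ r, Ok' 𝒦 γ r ∧ Ext q r ∧ D k r)
    (δ : ℕ → Ordinal.{0}) (hδ : ∀ k, δ k < γ) :
    ∃ P : ℕ → Cond a, P 0 = p0 ∧ ∀ k, Rel 𝒦 γ D δ k P (P (k + 1)) := by
  apply exists_history p0
  · intro k h h0 hR
    have hok : ∀ i ≤ k, Ok' 𝒦 γ (h i) ∧ ∀ j ≤ i, Ext (h j) (h i) := by
      intro i
      induction i with
      | zero =>
        intro _
        refine ⟨by rw [h0]; exact hp0, fun j hj => ?_⟩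
        rw [Nat.le_zero.1 hj]
        exact Ext.refl _
      | succ i ih =>
        intro hi
        have h1 := hR i (by omega)
        refine ⟨h1.1, fun j hj => ?_⟩
        rcases Nat.le_succ_iff.1 hj with hj | rfl
        · exact ((ih (by omega)).2 j hj).trans h1.2.1
        · exact Ext.refl _
    obtain ⟨r, h1, h2, h3, h4, h5, h6⟩ := gen_step (up k) (dense k) (hok k le_rfl).1
      (by rw [← h0]; exact (hok k le_rfl).2 0 (Nat.zero_le _)) (hδ k)
      ((hok k le_rfl).2 _ (Nat.unpair_left_le k)) k.unpair.2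
    exact ⟨r, h1, h2, h3, h4, h5, h6⟩
  · intro k h h' r hh h1
    have e1 := hh k le_rfl
    have e2 := hh _ (Nat.unpair_left_le k)
    unfold Rel at *
    rw [← e1, ← e2]
    exact h1

/-- **Existence of generic structures.** -/
theorem generic {𝒦 : Set (St a)} {γ : Ordinal.{0}} (hγ : γ < Ordinal.omega 1)
    (hcl : ∀ N : St a, (∀ ξ < γ, ∃ M ∈ 𝒦, BF M N univ univ ξ ∅) → N ∈ 𝒦)
    {D : ℕ → Cond a → Prop}
    (up : ∀ k q r, D k q → Ok' 𝒦 γ r → Ext q r → D k r) {p0 : Cond a} (hp0 : Ok' 𝒦 γ p0)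
    (dense : ∀ k q, Ok' 𝒦 γ q → Ext p0 q → ∃ r, Ok' 𝒦 γ r ∧ Ext q r ∧ D k r) :
    ∃ N ∈ 𝒦, Meets N p0 ∧ ∀ k, ∃ q, Ok' 𝒦 γ q ∧ Ext p0 q ∧ D k q ∧ Meets N q := by
  classical
  have hc := Dst.countable_Iio hγ
  have hne : Nonempty (Set.Iio γ) := ⟨⟨p0.l, hp0.2.1⟩⟩
  obtain ⟨δ', hδ'⟩ := exists_surjective_nat (Set.Iio γ)
  set δ : ℕ → Ordinal.{0} := fun k => (δ' k).1 with hδ
  have hδ1 : ∀ k, δ k < γ := fun k => (δ' k).2
  have hδ2 : ∀ ξ < γ, ∃ k, δ k = ξ := by
    intro ξ hξ
    obtain ⟨k, hk⟩ := hδ' ⟨ξ, hξ⟩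
    exact ⟨k, by rw [hδ]; simp only; rw [hk]⟩
  obtain ⟨P, hP0, hP⟩ := exists_seq up hp0 dense δ hδ1
  have hok : ∀ i, Ok' 𝒦 γ (P i) := by
    intro i
    cases i with
    | zero => rw [hP0]; exact hp0
    | succ i => exact (hP i).1
  have hext : ∀ i j, i ≤ j → Ext (P i) (P j) := by
    intro i j hij
    induction j, hij using Nat.le_induction with
    | base => exact Ext.refl _
    | succ j _ ih => exact ih.trans (hP j).2.1
  have hlen : ∀ k, k ≤ (P k).n := by
    intro k
    induction k with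
    | zero => exact Nat.zero_le _
    | succ k ih => exact (Nat.succ_le_succ ih).trans (hP k).2.2.2.2.1
  -- the limit structure
  let N : St a := (fun i j => (P (max i j + 1)).M.1 ((P (max i j + 1)).s i) ((P (max i j + 1)).s j),
    fun i t => (P (Finset.univ.sup t + 1)).M.2 i fun k => (P (Finset.univ.sup t + 1)).s (t k))
  have hp : ∀ k, PIso N (P k).M (gr (P k).n id (P k).s) := by
    intro k
    refine ⟨?_, ?_, ?_⟩
    · rintro _ ⟨i, hi, rfl⟩ _ ⟨j, hj, rfl⟩
      constructor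
      · intro h; simp only [id] at h; simp only; rw [h]
      · intro h; exact (hok k).2.2 hi hj h
    · rintro _ ⟨i, hi, rfl⟩ _ ⟨j, hj, rfl⟩
      show (P (max i j + 1)).M.1 ((P (max i j + 1)).s i) ((P (max i j + 1)).s j) =
        (P k).M.1 ((P k).s i) ((P k).s j)
      have hi' : i < (P (max i j + 1)).n := lt_of_lt_of_le (by omega) (hlen _)
      have hj' : j < (P (max i j + 1)).n := lt_of_lt_of_le (by omega) (hlen _)
      rcases le_total (max i j + 1) k with h | h
      · exact (hext _ _ h).2.2.piso.2.1 _ (gr_mem _ _ hi') _ (gr_mem _ _ hj')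
      · exact ((hext _ _ h).2.2.piso.2.1 _ (gr_mem _ _ hi) _ (gr_mem _ _ hj)).symm
    · intro i t ht
      choose e he1 he2 using ht
      show (P (Finset.univ.sup (fun k => (t k).1) + 1)).M.2 i
        (fun j => (P (Finset.univ.sup (fun k => (t k).1) + 1)).s (t j).1) =
        (P k).M.2 i (fun j => (t j).2)
      have ht1 : (fun j => (t j).1) = e := funext fun j => by rw [he2 j]; rfl
      have ht2 : (fun j => (t j).2) = fun j => (P k).s (e j) := funext fun j => by rw [he2 j]
      have ht3 : ∀ j, (t j).1 = e j := fun j => congrFun ht1 j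
      rw [ht2, ht1]
      simp only [ht3]
      set m := Finset.univ.sup e + 1 with hm
      have he3 : ∀ j, e j < (P m).n := fun j =>
        lt_of_lt_of_le (Nat.lt_succ_of_le (Finset.le_sup (Finset.mem_univ j))) (hlen _)
      rcases le_total m k with h | h
      · exact (hext _ _ h).2.2.piso.2.2 i (fun j => ((P m).s (e j), (P k).s (e j)))
          (fun j => gr_mem _ _ (he3 j))
      · exact ((hext _ _ h).2.2.piso.2.2 i (fun j => ((P k).s (e j), (P m).s (e j)))
          (fun j => gr_mem _ _ (he1 j))).symm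
  have hbf : ∀ ζ : Ordinal.{0}, ∀ k, ζ ≤ (P k).l →
      BF N (P k).M univ univ ζ (gr (P k).n id (P k).s) := by
    intro ζ
    induction ζ using WellFoundedLT.induction with
    | ind ζ ih =>
      intro k hk
      rw [BF_iff]
      refine ⟨hp k, fun o' ho' => ⟨fun x _ => ?_, fun y _ => ?_⟩⟩
      · -- an element of `N`
        set j := max k (x + 1) with hj
        have hkj : k ≤ j := le_max_left _ _
        have hxj : x < (P j).n := lt_of_lt_of_le (Nat.lt_succ_self x)
          ((le_max_right k (x + 1)).trans (hlen j))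
        obtain ⟨y, -, hy⟩ := (hext k j hkj).2.2.back (lt_add_one _) (mem_univ ((P j).s x))
        refine ⟨y, mem_univ _, ?_⟩
        have h1 : BF N (P j).M univ univ o' (gr (P j).n id (P j).s) :=
          ih o' ho' j ((ho'.le.trans hk).trans (hext k j hkj).1)
        have h2 := hy.symm.mono (ho'.le.trans hk)
        refine (h1.comp h2).subset ?_
        rintro u (rfl | ⟨i, hi, rfl⟩)
        · exact ⟨(P j).s x, ⟨x, hxj, rfl⟩, Or.inl rfl⟩
        · exact ⟨(P j).s i, ⟨i, lt_of_lt_of_le hi (hext k j hkj).2.1, rfl⟩, Or.inr ⟨i, hi, rfl⟩⟩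
      · -- an element of `(P k).M`
        set e := Nat.pair k y with he
        have he1 : e.unpair.1 = k := by rw [he, Nat.unpair_pair]
        have he2 : e.unpair.2 = y := by rw [he, Nat.unpair_pair]
        obtain ⟨-, -, -, -, -, i, hi, h3⟩ := hP e
        rw [he1, he2] at h3
        have hke : k ≤ e + 1 := (Nat.left_le_pair k y).trans (Nat.le_succ _)
        have h1 : BF N (P (e + 1)).M univ univ o' (gr (P (e + 1)).n id (P (e + 1)).s) :=
          ih o' ho' (e + 1) ((ho'.le.trans hk).trans (hext k _ hke).1)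
        refine ⟨i, mem_univ _, ?_⟩
        have h2 := h3.symm.mono (ho'.le.trans hk)
        refine (h1.comp h2).subset ?_
        rintro u (rfl | ⟨j, hj, rfl⟩)
        · exact ⟨(P (e + 1)).s i, ⟨i, hi, rfl⟩, Or.inl rfl⟩
        · exact ⟨(P (e + 1)).s j, ⟨j, lt_of_lt_of_le hj (hext k _ hke).2.1, rfl⟩,
            Or.inr ⟨j, hj, rfl⟩⟩
  have hmeets : ∀ k, Meets N (P k) := fun k => hbf _ k le_rfl
  refine ⟨N, hcl N fun ξ hξ => ?_, by rw [← hP0]; exact hmeets 0, fun k => ?_⟩
  · obtain ⟨k, hk⟩ := hδ2 ξ hξ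
    refine ⟨(P (k + 1)).M, (hok _).1, ?_⟩
    have h1 := (hbf ξ (k + 1) (by rw [← hk]; exact (hP k).2.2.2.1)).symm
    exact h1.subset (empty_subset _)
  · exact ⟨P (k + 1), hok _, by rw [← hP0]; exact hext 0 _ (Nat.zero_le _), (hP k).2.2.1,
      hmeets _⟩

end Pool.Agent.Helper27.CF
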