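import Pool.Agent.Helper27.CF.Gen2

set_option autoImplicit false

/-!
# Isolated types at a countable limit level, atomic structures and their embeddings
-/

namespace Pool.Agent.Helper27.CF

open Set
open Pool.Agent.H899R2.VP

variable {a : ℕ → ℕ}

/-- the type of rank `γ` of the first `n` entries of `s` in `M` is isolated at level `l` in the
class -/
def Isol (𝒦 : Set (St a)) (γ : Ordinal.{0}) (n : ℕ) (l : Ordinal.{0}) (M : St a) (s : ℕ → ℕ) :
    Prop := ∀ N ∈ 𝒦, ∀ t, BF M N univ univ l (gr n s t) → BF M N univ univ γ (gr n s t)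

variable {𝒦 : Set (St a)} {γ : Ordinal.{0}}

theorem Isol.move {n : ℕ} {l : Ordinal.{0}} {M M' : St a} {s s' : ℕ → ℕ}
    (h : Isol 𝒦 γ n l M s) (hM' : M' ∈ 𝒦) (hb : BF M M' univ univ l (gr n s s')) :
    Isol 𝒦 γ n l M' s' := fun N hN t ht =>
  BF.gcomp (BF.gsymm (h M' hM' s' hb)) (h N hN t (BF.gcomp hb ht))

theorem Isol.lvl {n : ℕ} {l l' : Ordinal.{0}} {M : St a} {s : ℕ → ℕ}
    (h : Isol 𝒦 γ n l M s) (hl : l ≤ l') : Isol 𝒦 γ n l' M s :=
  fun N hN t ht => h N hN t (ht.mono hl)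

theorem BF_limit (hlim : ∀ o < γ, o + 1 < γ) (h0 : 0 < γ) {M N : St a} {X Y : Set ℕ}
    {p : Set (ℕ × ℕ)} (h : ∀ ξ < γ, BF M N X Y ξ p) : BF M N X Y γ p := by
  rw [BF_iff]
  refine ⟨(h 0 h0).piso, fun o' ho' => ⟨fun x hx => ?_, fun y hy => ?_⟩⟩
  · exact (h _ (hlim _ ho')).forth (lt_add_one _) hx
  · exact (h _ (hlim _ ho')).back (lt_add_one _) hy

theorem lim_add (hlim : ∀ o < γ, o + 1 < γ) {o : Ordinal.{0}} (ho : o < γ) (n : ℕ) :
    o + n < γ := by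
  induction n with
  | zero => simpa using ho
  | succ n ih =>
    rw [Nat.cast_add, Nat.cast_one, ← add_assoc]
    exact hlim _ ih

/-- the standing hypotheses -/
structure Hyp (𝒦 : Set (St a)) (γ : Ordinal.{0}) : Prop where
  lt : γ < Ordinal.omega 1
  pos : 0 < γ
  lim : ∀ o < γ, o + 1 < γ
  cl : ∀ N : St a, (∀ ξ < γ, ∃ M ∈ 𝒦, BF M N univ univ ξ ∅) → N ∈ 𝒦
  lab : ∃ c : ℕ → St a → (ℕ → ℕ) → ℕ, ∀ n, ∀ M ∈ 𝒦, ∀ N ∈ 𝒦, ∀ s t, c n M s = c n N t →
    BF M N univ univ γ (gr n s t)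

theorem isol_dense (H : Hyp 𝒦 γ) {p : Cond a} (hp : Ok' 𝒦 γ p) :
    ∃ q, Ok' 𝒦 γ q ∧ Ext p q ∧ ∃ l ≤ q.l, Isol 𝒦 γ p.n l q.M q.s := by
  classical
  by_contra hA
  push Not at hA
  obtain ⟨c, hc⟩ := H.lab
  obtain ⟨N, hN, -, hD⟩ := generic H.lt H.cl
    (D := fun i q => p.n ≤ q.n ∧ ∀ N' ∈ 𝒦, ∀ t', c p.n N' t' = i →
      ¬ BF q.M N' univ univ q.l (gr p.n q.s t'))
    (by
      rintro k q r ⟨h1, h2⟩ hr hqr
      refine ⟨h1.trans hqr.2.1, fun N' hN' t' ht' hb => h2 N' hN' t' ht' ?_⟩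
      exact BF.gcomp (BF.gle hqr.2.2 (lt_add_one _).le h1) (hb.mono hqr.1))
    hp
    (by
      intro i q hq hpq
      have hkn : p.n ≤ q.n := hpq.2.1
      set l'' : Ordinal.{0} := q.l + 1 + ((q.n - p.n : ℕ) : Ordinal.{0}) with hl''
      have hl1 : l'' < γ := lim_add H.lim (H.lim _ hq.2.1) _
      obtain ⟨h1, h2⟩ := ext_lvl hq hl1
      have h3 := hA _ h1 (hpq.trans h2) l'' (le_max_right _ _)
      unfold Isol at h3
      push Not at h3
      obtain ⟨N1, hN1, t1, hb1, hb2⟩ := h3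
      simp only at hb1 hb2
      obtain ⟨ξ, hξ, hb3⟩ : ∃ ξ < γ, ¬ BF q.M N1 univ univ ξ (gr p.n q.s t1) := by
        by_contra hcon
        push Not at hcon
        exact hb2 (BF_limit H.lim H.pos hcon)
      by_cases hex : ∃ N' ∈ 𝒦, ∃ t', c p.n N' t' = i
      · obtain ⟨N', hN', t', hi⟩ := hex
        set ξ' := max q.l ξ with hξ'
        have hξ'γ : ξ' < γ := max_lt hq.2.1 hξ
        by_cases hb4 : BF q.M N' univ univ ξ' (gr p.n q.s t')
        · -- move to `N1`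
          obtain ⟨t2, ht2, hb5⟩ := BF.forth_n (q.n - p.n) hb1
          rw [show p.n + (q.n - p.n) = q.n by omega] at hb5
          refine ⟨⟨N1, q.n, t2, ξ'⟩, ⟨hN1, hξ'γ, BF.injOn hb5 hq.2.2⟩,
            ⟨le_max_left _ _, le_rfl, hb5⟩, hkn, fun N'' hN'' t'' hi'' hb6 => hb3 ?_⟩
          simp only at hb6
          have h7 : BF N'' N' univ univ ξ' (gr p.n t'' t') :=
            (hc p.n N'' hN'' N' hN' t'' t' (hi''.trans hi.symm)).mono hξ'γ.le
          have h8 : BF N1 N' univ univ ξ' (gr p.n t2 t') := BF.gcomp hb6 h7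
          have h9 : gr p.n t2 t' = gr p.n t1 t' := gr_congr (fun i hi => ht2 i hi) (fun _ _ => rfl)
          rw [h9] at h8
          exact (BF.gcomp hb4 (BF.gsymm h8)).mono (le_max_right _ _)
        · obtain ⟨h5, h6⟩ := ext_lvl hq hξ
          refine ⟨_, h5, h6, hkn, fun N'' hN'' t'' hi'' hb6 => hb4 ?_⟩
          have h7 : BF N'' N' univ univ ξ' (gr p.n t'' t') :=
            (hc p.n N'' hN'' N' hN' t'' t' (hi''.trans hi.symm)).mono hξ'γ.le
          exact BF.gcomp hb6 h7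
      · push Not at hex
        exact ⟨q, hq, Ext.refl q, hkn, fun N'' hN'' t'' hi'' => absurd hi'' (hex N'' hN'' t'')⟩)
  obtain ⟨q, -, -, ⟨h1, h2⟩, h3⟩ := hD (c p.n N id)
  exact h2 N hN id rfl (BF.gsymm (BF.gle h3 le_rfl h1))

/-- **Existence of atomic structures.** -/
theorem exists_atomic (H : Hyp 𝒦 γ) (hne : 𝒦.Nonempty) :
    ∃ N ∈ 𝒦, ∀ n, ∃ l < γ, Isol 𝒦 γ n l N id := by
  obtain ⟨M0, hM0⟩ := hne
  obtain ⟨N, hN, -, hD⟩ := generic H.lt H.cl
    (D := fun i q => ∃ n', i ≤ n' ∧ n' ≤ q.n ∧ ∃ l ≤ q.l, Isol 𝒦 γ n' l q.M q.s)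
    (p0 := ⟨M0, 0, id, 0⟩)
    (by
      rintro k q r ⟨n', h1, h2, l, h3, h4⟩ hr hqr
      exact ⟨n', h1, h2.trans hqr.2.1, l, h3.trans hqr.1,
        h4.move hr.1 (BF.gle hqr.2.2 (h3.trans (lt_add_one _).le) h2)⟩)
    ⟨hM0, H.pos, by intro i hi; exact absurd hi (Nat.not_lt_zero i)⟩
    (by
      intro i q hq _
      obtain ⟨r, h1, h2, h3⟩ := ext_len hq i
      obtain ⟨r', h4, h5, l, h6, h7⟩ := isol_dense H h1
      exact ⟨r', h4, h2.trans h5, r.n, h3, h5.2.1, l, h6, h7⟩)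
  refine ⟨N, hN, fun n => ?_⟩
  obtain ⟨q, hq, -, ⟨n', h1, h2, l, h3, h4⟩, h5⟩ := hD n
  have h6 : Isol 𝒦 γ n' l N id := h4.move hN (BF.gsymm (BF.gle h5 h3 h2))
  refine ⟨l + ((n' - n : ℕ) : Ordinal.{0}), lim_add H.lim (lt_of_le_of_lt h3 hq.2.1) _, ?_⟩
  intro N' hN' t ht
  obtain ⟨t', ht', hb⟩ := BF.forth_n (n' - n) ht
  rw [show n + (n' - n) = n' by omega] at hb
  have h7 := BF.gle (h6 N' hN' t' hb) le_rfl h1
  rwa [gr_congr (s := id) (s' := id) (fun _ _ => rfl) (fun i hi => ht' i hi)] at h7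

/-- an atomic structure embeds into all structures of the class -/
theorem embed {N : St a} (hat : ∀ n, ∃ l < γ, Isol 𝒦 γ n l N id) {M : St a} (hM : M ∈ 𝒦)
    (h0 : BF N M univ univ γ ∅) : ∃ f : ℕ → ℕ, ∀ n, BF N M univ univ γ (gr n id f) := by
  have hstep : ∀ n (t : {t : ℕ → ℕ // BF N M univ univ γ (gr n id t)}),
      ∃ t' : {t : ℕ → ℕ // BF N M univ univ γ (gr (n + 1) id t)}, ∀ i < n, t'.1 i = t.1 i := by
    rintro n ⟨t, ht⟩
    obtain ⟨l, hl, hiso⟩ := hat (n + 1)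
    obtain ⟨y, -, hy⟩ := ht.forth hl (mem_univ n)
    have h1 := gr_update n id t y
    simp only [id] at h1
    refine ⟨⟨Function.update t n y, hiso M hM _ ?_⟩, fun i hi => ?_⟩
    · have h2 : gr (n + 1) id (Function.update t n y) = insert (n, y) (gr n id t) :=
        gr_update n id t y
      rw [h2]
      exact hy
    · exact Function.update_of_ne hi.ne _ _
  choose F hF using hstep
  have h00 : BF N M univ univ γ (gr 0 id id) := by
    have : gr 0 id id = (∅ : Set (ℕ × ℕ)) := by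
      ext u
      constructor
      · rintro ⟨i, hi, -⟩
        exact absurd hi (Nat.not_lt_zero i)
      · intro h; exact absurd h (notMem_empty u)
    rw [this]
    exact h0
  let S : ∀ n, {t : ℕ → ℕ // BF N M univ univ γ (gr n id t)} :=
    fun n => Nat.rec ⟨id, h00⟩ (fun n t => F n t) n
  have hS : ∀ n, S (n + 1) = F n (S n) := fun n => rfl
  have hstab : ∀ m n, n ≤ m → ∀ i < n, (S m).1 i = (S n).1 i := by
    intro m n hnm
    induction m, hnm using Nat.le_induction with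
    | base => intro i _; rfl
    | succ m hm ih =>
      intro i hi
      rw [hS, hF m (S m) i (lt_of_lt_of_le hi hm)]
      exact ih i hi
  refine ⟨fun i => (S (i + 1)).1 i, fun n => ?_⟩
  have h1 : gr n id (fun i => (S (i + 1)).1 i) = gr n id (S n).1 :=
    gr_congr (fun _ _ => rfl) (fun i hi => (hstab n (i + 1) hi i (Nat.lt_succ_self i)).symm)
  rw [h1]
  exact (S n).2

theorem iso_of_surj {N M : St a} {f : ℕ → ℕ} {o : Ordinal.{0}}
    (hf : ∀ n, BF N M univ univ o (gr n id f)) (hs : Function.Surjective f) :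
    IsoOn N M univ univ ∅ := by
  have hp : ∀ n, PIso N M (gr n id f) := fun n => (hf n).piso
  refine ⟨⋃ n, gr n id f, empty_subset _, fun _ _ => ⟨mem_univ _, mem_univ _⟩, ⟨?_, ?_, ?_⟩,
    fun x _ => ⟨f x, mem_iUnion.2 ⟨x + 1, x, Nat.lt_succ_self x, rfl⟩⟩, fun y _ => ?_⟩
  · intro u hu v hv
    obtain ⟨n, hn⟩ := mem_iUnion.1 hu
    obtain ⟨m, hm⟩ := mem_iUnion.1 hv
    exact (hp (max n m)).1 u (gr_mono _ _ (le_max_left _ _) hn) v
      (gr_mono _ _ (le_max_right _ _) hm)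
  · intro u hu v hv
    obtain ⟨n, hn⟩ := mem_iUnion.1 hu
    obtain ⟨m, hm⟩ := mem_iUnion.1 hv
    exact (hp (max n m)).2.1 u (gr_mono _ _ (le_max_left _ _) hn) v
      (gr_mono _ _ (le_max_right _ _) hm)
  · intro i t ht
    choose n hn using fun k => mem_iUnion.1 (ht k)
    exact (hp (Finset.univ.sup n)).2.2 i t fun k =>
      gr_mono _ _ (Finset.le_sup (Finset.mem_univ k)) (hn k)
  · obtain ⟨x, rfl⟩ := hs y
    exact ⟨x, mem_iUnion.2 ⟨x + 1, x, Nat.lt_succ_self x, rfl⟩⟩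

end Pool.Agent.Helper27.CF
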