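import Pool.Agent.Helper27.CF.Over
import Pool.Agent.Helper27.CF.Free2
import Pool.Agent.H899R2.VP.Borel

set_option autoImplicit false

/-!
# A class of structures without the perfect set dichotomy contains a structure whose automorphism
group is not complete
-/

namespace Pool.Agent.Helper27.CF

open Set MeasureTheory
open Pool.Agent.H899R2.VP

variable {a : ℕ → ℕ}

theorem zip_map (n : ℕ) (s t : ℕ → ℕ) :
    zipSet ((List.range n).map s) ((List.range n).map t) = gr n s t := by
  ext u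
  rw [Dst.mem_zipSet_iff (by simp)]
  constructor
  · rintro ⟨i, hi, rfl⟩
    simp only [List.length_map, List.length_range] at hi
    refine ⟨i, hi, ?_⟩
    rw [List.getD_eq_getElem _ _ (by simpa using hi), List.getD_eq_getElem _ _ (by simpa using hi)]
    simp
  · rintro ⟨i, hi, rfl⟩
    refine ⟨i, by simpa using hi, ?_⟩
    rw [List.getD_eq_getElem _ _ (by simpa using hi), List.getD_eq_getElem _ _ (by simpa using hi)]
    simp

theorem comp_empty {p : Set (ℕ × ℕ)} : comp (∅ : Set (ℕ × ℕ)) p = ∅ := by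
  ext u
  constructor
  · rintro ⟨v, h, -⟩
    exact h
  · intro h; exact absurd h (notMem_empty u)

theorem inv_empty' : inv (∅ : Set (ℕ × ℕ)) = ∅ := by
  ext u
  exact Iff.rfl

/-- In a class without the dichotomy there are proper embeddings which are elementary up to any
given countable rank. -/
theorem pairs {K : Set (St a)} (hK : MeasurableSet K)
    (hinv : ∀ M ∈ K, ∀ N : St a, IsoOn M N univ univ ∅ → N ∈ K)
    (few : ¬ ∃ g : (ℕ → Bool) → St a, Continuous g ∧ (∀ c, g c ∈ K) ∧
      ∀ c d, IsoOn (g c) (g d) univ univ ∅ → c = d)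
    (unc : ¬ ∃ f : ℕ → St a, ∀ M ∈ K, ∃ n, IsoOn (f n) M univ univ ∅)
    {β : Ordinal.{0}} (hβ : β < Ordinal.omega 1) :
    ∃ N ∈ K, ∃ M ∈ K, ∃ f : ℕ → ℕ, ¬ Function.Surjective f ∧
      ∀ n, BF N M univ univ β (gr n id f) := by
  classical
  obtain ⟨α, hα, hcl⟩ := closed_rank hK hinv
  have hω : Ordinal.omega0 < Ordinal.omega.{0} 1 := by
    rw [← Ordinal.omega_zero]; exact Ordinal.omega_lt_omega.2 one_pos
  set γ : Ordinal.{0} := max α β + Ordinal.omega0 with hγ
  have hγ1 : γ < Ordinal.omega 1 := Ordinal.isPrincipal_add_omega 1 (max_lt hα hβ) hω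
  have hlimγ : Order.IsSuccLimit γ := Ordinal.isSuccLimit_add _ Ordinal.isSuccLimit_omega0
  have hlim : ∀ o < γ, o + 1 < γ := fun o ho => hlimγ.add_one_lt ho
  have hpos : 0 < γ := lt_of_lt_of_le Ordinal.omega0_pos le_add_self
  have hαγ : α < γ := lt_of_le_of_lt (le_max_left α β)
    (lt_add_of_pos_right _ Ordinal.omega0_pos)
  have hβγ : β < γ := lt_of_le_of_lt (le_max_right α β)
    (lt_add_of_pos_right _ Ordinal.omega0_pos)
  obtain ⟨c, hc⟩ := labels hK few γ hγ1
  -- two structures with the same label which are not isomorphic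
  obtain ⟨M1, hM1, M2, hM2, hlab, hni⟩ : ∃ M1 ∈ K, ∃ M2 ∈ K, c M1 [] = c M2 [] ∧
      ¬ IsoOn M1 M2 univ univ ∅ := by
    by_contra hcon
    push Not at hcon
    apply unc
    refine ⟨fun n => if h : ∃ M ∈ K, c M [] = n then h.choose else (fun _ _ => false, fun _ _ => false),
      fun M hM => ⟨c M [], ?_⟩⟩
    have hex : ∃ M' ∈ K, c M' [] = c M [] := ⟨M, hM, rfl⟩
    simp only [dif_pos hex]
    exact hcon _ hex.choose_spec.1 M hM hex.choose_spec.2
  have h12 : BF M1 M2 univ univ γ ∅ := by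
    have := hc M1 hM1 M2 hM2 [] [] rfl hlab
    rwa [zipSet_nil_left] at this
  set 𝒦 : Set (St a) := {M | M ∈ K ∧ BF M1 M univ univ γ ∅} with h𝒦
  have hK1 : M1 ∈ 𝒦 := ⟨hM1, (BF.refl M1 univ γ).subset (empty_subset _)⟩
  have hK2 : M2 ∈ 𝒦 := ⟨hM2, h12⟩
  have hyp : Hyp 𝒦 γ := by
    refine ⟨hγ1, hpos, hlim, fun N hN => ?_, ⟨fun n M s => c M ((List.range n).map s), ?_⟩⟩
    · have h1 : BF M1 N univ univ γ ∅ := by
        refine BF_limit hlim hpos fun ξ hξ => ?_
        obtain ⟨M, hM, h2⟩ := hN ξ hξ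
        have h3 := (hM.2.mono hξ.le).comp h2
        rwa [comp_empty] at h3
      exact ⟨hcl M1 hM1 N (h1.mono hαγ.le), h1⟩
    · intro n M hM N hN s t h
      have := hc M hM.1 N hN.1 _ _ (by simp) h
      rwa [zip_map] at this
  obtain ⟨N, hN, hat⟩ := exists_atomic hyp ⟨M1, hK1⟩
  obtain ⟨M, hM, hNM⟩ : ∃ M ∈ 𝒦, ¬ IsoOn N M univ univ ∅ := by
    by_contra hcon
    push Not at hcon
    apply hni
    have h1 := (hcon M1 hK1).symm.trans (hcon M2 hK2)
    rwa [inv_empty', comp_empty] at h1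
  have h0 : BF N M univ univ γ ∅ := by
    have h1 := hN.2.symm.comp hM.2
    rwa [inv_empty', comp_empty] at h1
  obtain ⟨f, hf⟩ := embed hat hM h0
  exact ⟨N, hN.1, M, hM.1, f, fun hs => hNM (iso_of_surj hf hs), fun n => (hf n).mono hβγ.le⟩

/-- In a Borel class without the dichotomy there is a structure `M` with a map which is not
surjective and a pointwise limit of automorphisms. -/
theorem exists_limit {K : Set (St a)} (hK : MeasurableSet K)
    (hinv : ∀ M ∈ K, ∀ N : St a, IsoOn M N univ univ ∅ → N ∈ K)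
    (few : ¬ ∃ g : (ℕ → Bool) → St a, Continuous g ∧ (∀ c, g c ∈ K) ∧
      ∀ c d, IsoOn (g c) (g d) univ univ ∅ → c = d)
    (unc : ¬ ∃ f : ℕ → St a, ∀ M ∈ K, ∃ n, IsoOn (f n) M univ univ ∅) :
    ∃ M ∈ K, ∃ f : ℕ → ℕ, ¬ Function.Surjective f ∧
      ∀ n, IsoOn M M univ univ (gr n id f) := by
  classical
  have b1 : BorelSpace ((i : ℕ) → (Fin (a i) → ℕ) → Bool) := inferInstance
  have b2 : BorelSpace (ℕ → ℕ → Bool) := inferInstance
  have s1 : SecondCountableTopology (St a) := inferInstance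
  have b3 : BorelSpace (St a) := inferInstance
  have b4 : BorelSpace (ℕ → ℕ) := inferInstance
  have b5 : BorelSpace (St a × (ℕ → ℕ)) := inferInstance
  have b6 : BorelSpace (Tr a) := inferInstance
  have b7 : PolishSpace (Tr a) := polish_of
  set Z : Set (Tr a) := {P | P.1 ∈ K ∧ P.2.1 ∈ K ∧ ∃ y, ∀ x, P.2.2 x ≠ y} with hZ
  have hZm : MeasurableSet Z := by
    refine (measurable_fst hK).inter ((measurable_fst.comp measurable_snd hK).inter ?_)
    have h1 : {P : Tr a | ∃ y, ∀ x, P.2.2 x ≠ y} =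
        ⋃ y : ℕ, ⋂ x : ℕ, {P : Tr a | P.2.2 x = y}ᶜ := by
      ext P
      simp only [mem_iUnion, mem_iInter, mem_compl_iff, Set.mem_ofPred_eq, ne_eq]
    show MeasurableSet {P : Tr a | ∃ y, ∀ x, P.2.2 x ≠ y}
    rw [h1]
    refine MeasurableSet.iUnion fun y => MeasurableSet.iInter fun x => MeasurableSet.compl ?_
    have h2 : Measurable fun P : Tr a => P.2.2 x :=
      (measurable_pi_apply x).comp (measurable_snd.comp measurable_snd)
    exact h2 (measurableSet_singleton y)
  have han : AnalyticSet Z := hZm.analyticSet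
  rw [AnalyticSet] at han
  rcases han with he | ⟨F, hF, hr⟩
  · obtain ⟨N, hN, M, hM, f, hf, -⟩ := pairs hK hinv few unc (Ordinal.omega_pos 1)
    exfalso
    have : (N, M, f) ∈ Z := ⟨hN, hM, by
      unfold Function.Surjective at hf
      push Not at hf
      exact hf⟩
    rw [he] at this
    exact this
  · obtain ⟨z, hz⟩ := bounding2 F hF (by
      intro β hβ
      obtain ⟨N, hN, M, hM, f, hf, h1⟩ := pairs hK hinv few unc hβ
      have : (N, M, f) ∈ range F := by
        rw [hr]
        refine ⟨hN, hM, ?_⟩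
        unfold Function.Surjective at hf
        push Not at hf
        exact hf
      obtain ⟨z, hz⟩ := this
      refine ⟨z, ?_⟩
      rw [hz]
      exact h1)
    have hzZ : F z ∈ Z := by rw [← hr]; exact mem_range_self z
    obtain ⟨hN, hM, y, hy⟩ := hzZ
    set N := (F z).1 with hNdef
    set M := (F z).2.1 with hMdef
    set f := (F z).2.2 with hfdef
    -- an isomorphism from `N` to `M`
    obtain ⟨e, -, he⟩ := (hz 0).exists_equiv
    have hiso : IsoOn N M univ univ {u | u.2 = e u.1} :=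
      ⟨{u | u.2 = e u.1}, subset_rfl, fun _ _ => ⟨mem_univ _, mem_univ _⟩, he,
        fun x _ => ⟨e x, rfl⟩, fun y _ => ⟨e.symm y, by simp⟩⟩
    refine ⟨M, hM, fun x => f (e.symm x), ?_, fun n => ?_⟩
    · intro hs
      obtain ⟨x, hx⟩ := hs y
      exact hy _ hx
    · obtain ⟨m, hm⟩ : ∃ m, ∀ i < n, e.symm i < m :=
        ⟨(Finset.range n).sup (fun i => e.symm i) + 1, fun i hi =>
          Nat.lt_succ_of_le (Finset.le_sup (f := fun i => e.symm i) (Finset.mem_range.2 hi))⟩
      refine (hiso.symm.trans (hz m)).mono ?_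
      rintro u ⟨i, hi, rfl⟩
      refine ⟨e.symm i, ?_, e.symm i, hm i hi, rfl⟩
      show i = e (e.symm i)
      simp

end Pool.Agent.Helper27.CF
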