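import Pool.Agent.Helper27.CF.Gen3
import Pool.Agent.H899R2.VP.Bnd

set_option autoImplicit false

/-!
# Boundedness for elementary embeddings of high rank
-/

namespace Pool.Agent.Helper27.CF

open Set
open Pool.Agent.H899R2.VP

variable {a : ℕ → ℕ}

/-- two structures and a map -/
abbrev Tr (a : ℕ → ℕ) : Type := St a × St a × (ℕ → ℕ)

/-- invariant of the construction -/
def Inv2 (F : (ℕ → ℕ) → Tr a) (n : ℕ) (s w : ℕ → ℕ) (Q : ℕ → Set (ℕ × ℕ)) : Prop :=
  ∀ β : Ordinal.{0}, β < Ordinal.omega 1 → ∃ z : ℕ → ℕ, (∀ i < n, z i = s i) ∧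
    (∀ i < n, (F z).2.2 i = w i) ∧
    (∀ m, BF (F z).1 (F z).2.1 univ univ β (gr m id (F z).2.2)) ∧
    ∀ j < n, BF (F z).1 (F z).2.1 univ univ β (Q j)

/-- the element treated at step `n` -/
def el (n : ℕ) : ℕ := n.unpair.1

/-- the next sets -/
def nxt (n : ℕ) (w : ℕ → ℕ) (Q : ℕ → Set (ℕ × ℕ)) (x y : ℕ → ℕ) (j : ℕ) : Set (ℕ × ℕ) :=
  insert (x j, el n) (insert (el n, y j) (if j < n then Q j else gr n id w))

theorem Inv2.step {F : (ℕ → ℕ) → Tr a} {n : ℕ} {s w : ℕ → ℕ} {Q : ℕ → Set (ℕ × ℕ)}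
    (h : Inv2 F n s w Q) : ∃ (k u : ℕ) (x y : ℕ → ℕ),
      Inv2 F (n + 1) (Function.update s n k) (Function.update w n u) (nxt n w Q x y) := by
  classical
  obtain ⟨⟨k, u, x, y⟩, hk⟩ := pigeon (κ := ℕ × ℕ × (Fin (n + 1) → ℕ) × (Fin (n + 1) → ℕ))
    (fun β κ => ∃ z : ℕ → ℕ, (∀ i < n, z i = s i) ∧ z n = κ.1 ∧
      (∀ i < n, (F z).2.2 i = w i) ∧ (F z).2.2 n = κ.2.1 ∧
      (∀ m, BF (F z).1 (F z).2.1 univ univ β (gr m id (F z).2.2)) ∧
      ∀ j : Fin (n + 1), BF (F z).1 (F z).2.1 univ univ β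
        (insert (κ.2.2.1 j, el n) (insert (el n, κ.2.2.2 j) (if j.1 < n then Q j.1 else gr n id w))))
    (by
      rintro β γ κ hγ ⟨z, h1, h2, h3, h4, h5, h6⟩
      exact ⟨z, h1, h2, h3, h4, fun m => (h5 m).mono hγ, fun j => (h6 j).mono hγ⟩)
    (by
      intro β hβ
      have hs : β + 1 + 1 < Ordinal.omega 1 :=
        (Cardinal.isSuccLimit_omega 1).add_one_lt ((Cardinal.isSuccLimit_omega 1).add_one_lt hβ)
      obtain ⟨z, hz1, hz2, hz3, hz4⟩ := h _ hs
      have h1 : ∀ j : Fin (n + 1), ∃ x y, BF (F z).1 (F z).2.1 univ univ β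
          (insert (x, el n) (insert (el n, y) (if j.1 < n then Q j.1 else gr n id w))) := by
        intro j
        have h2 : BF (F z).1 (F z).2.1 univ univ (β + 1 + 1)
            (if j.1 < n then Q j.1 else gr n id w) := by
          by_cases hj : j.1 < n
          · rw [if_pos hj]
            exact hz4 _ hj
          · rw [if_neg hj]
            have h3 := hz3 n
            rwa [gr_congr (s := id) (s' := id) (fun _ _ => rfl) (fun i hi => hz2 i hi)] at h3
        obtain ⟨y, -, hy⟩ := h2.forth (o' := β + 1) (lt_add_one _) (mem_univ (el n))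
        obtain ⟨x, -, hx⟩ := hy.back (o' := β) (lt_add_one _) (mem_univ (el n))
        exact ⟨x, y, hx⟩
      choose x y hxy using h1
      exact ⟨(z n, (F z).2.2 n, x, y), z, hz1, rfl, hz2, rfl,
        fun m => (hz3 m).mono ((lt_add_one _).trans (lt_add_one _)).le, hxy⟩)
  refine ⟨k, u, fun j => if hj : j < n + 1 then x ⟨j, hj⟩ else 0,
    fun j => if hj : j < n + 1 then y ⟨j, hj⟩ else 0, fun β hβ => ?_⟩
  obtain ⟨z, h1, h2, h3, h4, h5, h6⟩ := hk β hβ
  refine ⟨z, fun i hi => ?_, fun i hi => ?_, h5, fun j hj => ?_⟩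
  · rcases Nat.lt_succ_iff_lt_or_eq.1 hi with hi | rfl
    · rw [Function.update_of_ne hi.ne]; exact h1 i hi
    · rw [Function.update_self]; exact h2
  · rcases Nat.lt_succ_iff_lt_or_eq.1 hi with hi | rfl
    · rw [Function.update_of_ne hi.ne]; exact h3 i hi
    · rw [Function.update_self]; exact h4
  · have h7 := h6 ⟨j, hj⟩
    unfold nxt
    simp only [dif_pos hj]
    exact h7

/-- **Boundedness.** If a continuous family contains for every countable rank a map which is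
elementary up to this rank, then it contains a map which is a pointwise limit of isomorphisms. -/
theorem bounding2 (F : (ℕ → ℕ) → Tr a) (hF : Continuous F)
    (h : ∀ β : Ordinal.{0}, β < Ordinal.omega 1 → ∃ z, ∀ m,
      BF (F z).1 (F z).2.1 univ univ β (gr m id (F z).2.2)) :
    ∃ z, ∀ m, IsoOn (F z).1 (F z).2.1 univ univ (gr m id (F z).2.2) := by
  classical
  have h0 : Inv2 F 0 (fun _ => 0) (fun _ => 0) (fun _ => ∅) := by
    intro β hβ
    obtain ⟨z, hz⟩ := h β hβ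
    exact ⟨z, fun i hi => absurd hi (Nat.not_lt_zero i), fun i hi => absurd hi (Nat.not_lt_zero i),
      hz, fun j hj => absurd hj (Nat.not_lt_zero j)⟩
  obtain ⟨S, hS⟩ : ∃ S : ℕ → (ℕ → ℕ) × (ℕ → ℕ) × (ℕ → Set (ℕ × ℕ)),
      ∀ n, Inv2 F n (S n).1 (S n).2.1 (S n).2.2 ∧ ∃ (k u : ℕ) (x y : ℕ → ℕ), S (n + 1) =
        (Function.update (S n).1 n k, Function.update (S n).2.1 n u,
          nxt n (S n).2.1 (S n).2.2 x y) := by
    have hst : ∀ n (σ : {σ : (ℕ → ℕ) × (ℕ → ℕ) × (ℕ → Set (ℕ × ℕ)) //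
          Inv2 F n σ.1 σ.2.1 σ.2.2}),
        ∃ τ : {σ : (ℕ → ℕ) × (ℕ → ℕ) × (ℕ → Set (ℕ × ℕ)) // Inv2 F (n + 1) σ.1 σ.2.1 σ.2.2},
          ∃ (k u : ℕ) (x y : ℕ → ℕ), τ.1 = (Function.update σ.1.1 n k,
            Function.update σ.1.2.1 n u, nxt n σ.1.2.1 σ.1.2.2 x y) := by
      rintro n ⟨σ, hσ⟩
      obtain ⟨k, u, x, y, hh⟩ := hσ.step
      exact ⟨⟨_, hh⟩, k, u, x, y, rfl⟩
    choose T hT using hst
    let G : ∀ n, {σ : (ℕ → ℕ) × (ℕ → ℕ) × (ℕ → Set (ℕ × ℕ)) // Inv2 F n σ.1 σ.2.1 σ.2.2} :=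
      fun n => Nat.rec ⟨(_, _, _), h0⟩ (fun n σ => T n σ) n
    exact ⟨fun n => (G n).1, fun n => ⟨(G n).2, hT n (G n)⟩⟩
  choose hinv k u x y hstep using hS
  set z : ℕ → ℕ := fun i => (S (i + 1)).1 i with hz
  set w : ℕ → ℕ := fun i => (S (i + 1)).2.1 i with hw
  have hpre : ∀ n, ∀ i < n, (S n).1 i = z i := by
    intro n
    induction n with
    | zero => intro i hi; exact absurd hi (Nat.not_lt_zero i)
    | succ n ih =>
      intro i hi
      rcases Nat.lt_succ_iff_lt_or_eq.1 hi with hi | rfl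
      · rw [hstep n]
        simp only [Function.update_of_ne hi.ne]
        exact ih i hi
      · rfl
  have hprew : ∀ n, ∀ i < n, (S n).2.1 i = w i := by
    intro n
    induction n with
    | zero => intro i hi; exact absurd hi (Nat.not_lt_zero i)
    | succ n ih =>
      intro i hi
      rcases Nat.lt_succ_iff_lt_or_eq.1 hi with hi | rfl
      · rw [hstep n]
        simp only [Function.update_of_ne hi.ne]
        exact ih i hi
      · rfl
  have hQmono : ∀ j m n, j < m → m ≤ n → (S m).2.2 j ⊆ (S n).2.2 j := by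
    intro j m n hj hmn
    induction n, hmn using Nat.le_induction with
    | base => exact subset_rfl
    | succ n hn ih =>
      refine ih.trans ?_
      rw [hstep n]
      show (S n).2.2 j ⊆ nxt n (S n).2.1 (S n).2.2 (x n) (y n) j
      unfold nxt
      rw [if_pos (lt_of_lt_of_le hj hn)]
      exact (subset_insert _ _).trans (subset_insert _ _)
  -- convergence
  have hzm : ∀ m, ∃ v : ℕ → ℕ, (∀ i < m, v i = z i) ∧ (∀ i < m, (F v).2.2 i = w i) ∧
      ∀ j < m, BF (F v).1 (F v).2.1 univ univ 0 ((S m).2.2 j) := by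
    intro m
    obtain ⟨v, h1, h2, -, h4⟩ := hinv m 0 (Ordinal.omega_pos 1)
    exact ⟨v, fun i hi => (h1 i hi).trans (hpre m i hi), fun i hi => (h2 i hi).trans (hprew m i hi),
      h4⟩
  choose v hv1 hv2 hv3 using hzm
  have hlim : Filter.Tendsto v Filter.atTop (nhds z) := by
    rw [tendsto_pi_nhds]
    intro i
    apply tendsto_const_nhds.congr'
    filter_upwards [Filter.eventually_gt_atTop i] with m hm
    exact (hv1 m i hm).symm
  have hlim2 := (hF.tendsto z).comp hlim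
  have hfz : ∀ i, (F z).2.2 i = w i := by
    intro i
    have h3 : Filter.Tendsto (fun m => (F (v m)).2.2 i) Filter.atTop (nhds ((F z).2.2 i)) := by
      have h4 : Continuous fun P : Tr a => P.2.2 i :=
        (continuous_apply i).comp (continuous_snd.comp continuous_snd)
      exact (h4.tendsto (F z)).comp hlim2
    have h5 : Filter.Tendsto (fun m => (F (v m)).2.2 i) Filter.atTop (nhds (w i)) := by
      apply tendsto_const_nhds.congr'
      filter_upwards [Filter.eventually_gt_atTop i] with m hm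
      exact (hv2 m i hm).symm
    exact tendsto_nhds_unique h3 h5
  have hp : ∀ n j, j < n → PIso (F z).1 (F z).2.1 ((S n).2.2 j) := by
    intro n j hj
    have h3 : Filter.Tendsto (fun m => ((F (v m)).1, (F (v m)).2.1)) Filter.atTop
        (nhds ((F z).1, (F z).2.1)) := by
      have h4 : Continuous fun P : Tr a => ((P.1, P.2.1) : St a × St a) :=
        continuous_fst.prodMk (continuous_fst.comp continuous_snd)
      exact (h4.tendsto (F z)).comp hlim2
    refine (isClosed_piso ((S n).2.2 j)).mem_of_tendsto h3 ?_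
    filter_upwards [Filter.eventually_ge_atTop n] with m hm
    exact ((hv3 m j (lt_of_lt_of_le hj hm)).piso).mono (hQmono j n m hj hm)
  have hbase : ∀ j, gr j id (F z).2.2 ⊆ (S (j + 1)).2.2 j := by
    intro j
    rw [hstep j]
    show _ ⊆ nxt j (S j).2.1 (S j).2.2 (x j) (y j) j
    unfold nxt
    rw [if_neg (lt_irrefl j)]
    refine Subset.trans ?_ ((subset_insert _ _).trans (subset_insert _ _))
    rw [gr_congr (s := id) (s' := id) (t := (F z).2.2) (t' := (S j).2.1) (fun _ _ => rfl)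
      (fun i hi => (hfz i).trans (hprew j i hi).symm)]
  refine ⟨z, fun m => ⟨⋃ n, ⋃ (_ : m < n), (S n).2.2 m, ?_, fun _ _ => ⟨mem_univ _, mem_univ _⟩,
    ⟨?_, ?_, ?_⟩, fun x' _ => ?_, fun y' _ => ?_⟩⟩
  · intro p hp'
    exact mem_iUnion₂.2 ⟨m + 1, Nat.lt_succ_self m, hbase m hp'⟩
  · intro p hp1 q hq1
    obtain ⟨n, hn, hp2⟩ := mem_iUnion₂.1 hp1
    obtain ⟨n', hn', hq2⟩ := mem_iUnion₂.1 hq1
    exact (hp (max n n') m (lt_of_lt_of_le hn (le_max_left _ _))).1 p
      (hQmono m n _ hn (le_max_left _ _) hp2) q (hQmono m n' _ hn' (le_max_right _ _) hq2)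
  · intro p hp1 q hq1
    obtain ⟨n, hn, hp2⟩ := mem_iUnion₂.1 hp1
    obtain ⟨n', hn', hq2⟩ := mem_iUnion₂.1 hq1
    exact (hp (max n n') m (lt_of_lt_of_le hn (le_max_left _ _))).2.1 p
      (hQmono m n _ hn (le_max_left _ _) hp2) q (hQmono m n' _ hn' (le_max_right _ _) hq2)
  · intro i t ht
    have ht' : ∀ k, ∃ n, m < n ∧ t k ∈ (S n).2.2 m := by
      intro k
      obtain ⟨n, hn, h5⟩ := mem_iUnion₂.1 (ht k)
      exact ⟨n, hn, h5⟩
    choose n hn1 hn2 using ht'
    refine (hp (max (m + 1) (Finset.univ.sup n)) m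
      (lt_of_lt_of_le (Nat.lt_succ_self m) (le_max_left _ _))).2.2 i t fun k =>
      hQmono m (n k) _ (hn1 k) ((Finset.le_sup (Finset.mem_univ k)).trans (le_max_right _ _))
        (hn2 k)
  · have hm : m < Nat.pair x' m + 1 := Nat.lt_succ_of_le (Nat.right_le_pair x' m)
    refine ⟨y (Nat.pair x' m) m, mem_iUnion₂.2 ⟨Nat.pair x' m + 1, hm, ?_⟩⟩
    rw [hstep (Nat.pair x' m)]
    refine Or.inr (Or.inl ?_)
    rw [el, Nat.unpair_pair]
  · have hm : m < Nat.pair y' m + 1 := Nat.lt_succ_of_le (Nat.right_le_pair y' m)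
    refine ⟨x (Nat.pair y' m) m, mem_iUnion₂.2 ⟨Nat.pair y' m + 1, hm, ?_⟩⟩
    rw [hstep (Nat.pair y' m)]
    refine Or.inl ?_
    rw [el, Nat.unpair_pair]

end Pool.Agent.Helper27.CF
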